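import Mathlib

set_option autoImplicit false

namespace Pool.Agent.Lib.MP_ada285_co

variable {α : Type}

/-- `Wk K n a b`: there is a walk of length `n` from `a` to `b` in `K`. -/
inductive Wk (K : SimpleGraph α) : ℕ → α → α → Prop
  | refl (a : α) : Wk K 0 a a
  | step {n : ℕ} {a b c : α} : Wk K n a b → K.Adj b c → Wk K (n + 1) a c

namespace Wk

variable {K K' : SimpleGraph α} {m n : ℕ} {a b c : α}

lemma trans (h : Wk K m a b) (h' : Wk K n b c) : Wk K (m + n) a c := by
  induction h' with
  | refl => exact h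
  | step _ hadj ih => exact (ih h).step hadj

lemma single (h : K.Adj a b) : Wk K 1 a b := (Wk.refl a).step h

lemma symm (h : Wk K n a b) : Wk K n b a := by
  induction h with
  | refl => exact Wk.refl _
  | @step n a b c _ hadj ih =>
    have := (single hadj.symm).trans ih
    rwa [Nat.add_comm] at this

lemma mono (hK : ∀ x y, K.Adj x y → K'.Adj x y) (h : Wk K n a b) : Wk K' n a b := by
  induction h with
  | refl => exact Wk.refl _
  | step _ hadj ih => exact ih.step (hK _ _ hadj)

lemma succ_inv (h : Wk K (n + 1) a c) : ∃ b, Wk K n a b ∧ K.Adj b c := by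
  cases h with
  | step h hadj => exact ⟨_, h, hadj⟩

lemma zero_inv (h : Wk K 0 a b) : a = b := by
  cases h; rfl

end Wk

/-- connected in `K` -/
def Conn (K : SimpleGraph α) (a b : α) : Prop := ∃ n, Wk K n a b

/-- joined by a walk of odd length -/
def OddC (K : SimpleGraph α) (a b : α) : Prop := ∃ n, Odd n ∧ Wk K n a b

/-- joined by a walk of even length -/
def EvenC (K : SimpleGraph α) (a b : α) : Prop := ∃ n, Even n ∧ Wk K n a b

section
variable {K K' : SimpleGraph α} {a b c : α}

lemma Conn.refl (a : α) : Conn K a a := ⟨0, Wk.refl a⟩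
lemma Conn.symm (h : Conn K a b) : Conn K b a := by obtain ⟨n, h⟩ := h; exact ⟨n, h.symm⟩
lemma Conn.trans (h : Conn K a b) (h' : Conn K b c) : Conn K a c := by
  obtain ⟨n, h⟩ := h; obtain ⟨m, h'⟩ := h'; exact ⟨n + m, h.trans h'⟩
lemma Conn.mono (hK : ∀ x y, K.Adj x y → K'.Adj x y) (h : Conn K a b) : Conn K' a b := by
  obtain ⟨n, h⟩ := h; exact ⟨n, h.mono hK⟩
lemma Conn.of_adj (h : K.Adj a b) : Conn K a b := ⟨1, Wk.single h⟩

lemma OddC.conn (h : OddC K a b) : Conn K a b := by obtain ⟨n, _, h⟩ := h; exact ⟨n, h⟩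
lemma EvenC.conn (h : EvenC K a b) : Conn K a b := by obtain ⟨n, _, h⟩ := h; exact ⟨n, h⟩
lemma OddC.symm (h : OddC K a b) : OddC K b a := by obtain ⟨n, h1, h⟩ := h; exact ⟨n, h1, h.symm⟩
lemma EvenC.symm (h : EvenC K a b) : EvenC K b a := by obtain ⟨n, h1, h⟩ := h; exact ⟨n, h1, h.symm⟩
lemma EvenC.refl (a : α) : EvenC K a a := ⟨0, Even.zero, Wk.refl a⟩
lemma OddC.of_adj (h : K.Adj a b) : OddC K a b := ⟨1, odd_one, Wk.single h⟩
lemma OddC.mono (hK : ∀ x y, K.Adj x y → K'.Adj x y) (h : OddC K a b) : OddC K' a b := by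
  obtain ⟨n, h1, h⟩ := h; exact ⟨n, h1, h.mono hK⟩
lemma EvenC.mono (hK : ∀ x y, K.Adj x y → K'.Adj x y) (h : EvenC K a b) : EvenC K' a b := by
  obtain ⟨n, h1, h⟩ := h; exact ⟨n, h1, h.mono hK⟩
lemma OddC.trans_odd (h : OddC K a b) (h' : OddC K b c) : EvenC K a c := by
  obtain ⟨n, h1, h⟩ := h; obtain ⟨m, h2, h'⟩ := h'; exact ⟨n + m, h1.add_odd h2, h.trans h'⟩
lemma OddC.trans_even (h : OddC K a b) (h' : EvenC K b c) : OddC K a c := by
  obtain ⟨n, h1, h⟩ := h; obtain ⟨m, h2, h'⟩ := h'; exact ⟨n + m, h1.add_even h2, h.trans h'⟩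
lemma EvenC.trans_odd (h : EvenC K a b) (h' : OddC K b c) : OddC K a c := by
  obtain ⟨n, h1, h⟩ := h; obtain ⟨m, h2, h'⟩ := h'; exact ⟨n + m, h1.add_odd h2, h.trans h'⟩
lemma EvenC.trans_even (h : EvenC K a b) (h' : EvenC K b c) : EvenC K a c := by
  obtain ⟨n, h1, h⟩ := h; obtain ⟨m, h2, h'⟩ := h'; exact ⟨n + m, h1.add h2, h.trans h'⟩
lemma Conn.odd_or_even (h : Conn K a b) : OddC K a b ∨ EvenC K a b := by
  obtain ⟨n, h⟩ := h
  rcases Nat.even_or_odd n with h' | h'
  · exact Or.inr ⟨n, h', h⟩
  · exact Or.inl ⟨n, h', h⟩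

/-- `K` has no triangle -/
def TriFree (K : SimpleGraph α) : Prop := ∀ a b c, K.Adj a b → K.Adj b c → K.Adj a c → False

/-- `K` has no induced path on six vertices -/
def P6Free (K : SimpleGraph α) : Prop := ∀ a b c d e f,
  K.Adj a b → K.Adj b c → K.Adj c d → K.Adj d e → K.Adj e f →
  ¬ K.Adj a c → ¬ K.Adj a d → ¬ K.Adj a e → ¬ K.Adj a f →
  ¬ K.Adj b d → ¬ K.Adj b e → ¬ K.Adj b f →
  ¬ K.Adj c e → ¬ K.Adj c f → ¬ K.Adj d f → False

/-- `f` is a 5-cycle -/
def Cyc5 (K : SimpleGraph α) (f : Fin 5 → α) : Prop := ∀ i, K.Adj (f i) (f (i + 1))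

/-- distance-like function -/
noncomputable def dd (K : SimpleGraph α) (t a : α) : ℕ := sInf {n | Wk K n t a}

lemma wk_dd (h : Conn K a b) : Wk K (dd K a b) a b := Nat.sInf_mem (s := {n | Wk K n a b}) h

lemma dd_le {n : ℕ} (h : Wk K n a b) : dd K a b ≤ n := Nat.sInf_le h

lemma dd_adj {t : α} (h : Conn K t a) (hab : K.Adj a b) : dd K t b ≤ dd K t a + 1 :=
  dd_le ((wk_dd h).step hab)

lemma dd_parent {t : α} {n : ℕ} (h : Conn K t a) (hn : dd K t a = n + 1) :
    ∃ b, Conn K t b ∧ K.Adj b a ∧ dd K t b = n := by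
  have h1 := wk_dd h
  rw [hn] at h1
  obtain ⟨b, hb, hadj⟩ := h1.succ_inv
  refine ⟨b, ⟨n, hb⟩, hadj, ?_⟩
  have h2 := dd_le hb
  have h3 := dd_adj ⟨n, hb⟩ hadj
  omega

/-- In a triangle-free, `P₆`-free graph, a component with an edge inside a distance layer has a 5-cycle. -/
lemma layer_edge (hT : TriFree K) (hP : P6Free K) (t : α) :
    ∀ n, ∀ a b, Conn K t a → Conn K t b → K.Adj a b → dd K t a = n → dd K t b = n →
      ∃ f, Cyc5 K f ∧ Conn K t (f 0) := by
  intro n
  induction n using Nat.strong_induction_on with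
  | _ n ih =>
    intro a b ha hb hab hna hnb
    rcases n with _ | n
    · have h1 := wk_dd ha
      rw [hna] at h1
      have h2 := wk_dd hb
      rw [hnb] at h2
      have := h1.zero_inv
      have := h2.zero_inv
      subst_vars
      exact absurd hab (K.loopless.irrefl _)
    · obtain ⟨a1, ha1, ha1a, hna1⟩ := dd_parent ha hna
      obtain ⟨b1, hb1, hb1b, hnb1⟩ := dd_parent hb hnb
      have hne : a1 ≠ b1 := by
        rintro rfl
        exact hT _ _ _ ha1a hab hb1b
      rcases n with _ | n
      · have h1 := wk_dd ha1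
        rw [hna1] at h1
        have h2 := wk_dd hb1
        rw [hnb1] at h2
        exact absurd (h1.zero_inv.symm.trans h2.zero_inv) hne
      · obtain ⟨a2, ha2, ha2a, hna2⟩ := dd_parent ha1 hna1
        obtain ⟨b2, hb2, hb2b, hnb2⟩ := dd_parent hb1 hnb1
        by_cases h1 : K.Adj a2 b1
        · refine ⟨![a2, a1, a, b, b1], ?_, ?_⟩
          · intro i
            fin_cases i
            · exact ha2a
            · exact ha1a
            · exact hab
            · exact hb1b.symm
            · exact h1.symm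
          · exact ha2
        · by_cases h2 : K.Adj b2 a1
          · refine ⟨![b2, b1, b, a, a1], ?_, ?_⟩
            · intro i
              fin_cases i
              · exact hb2b
              · exact hb1b
              · exact hab.symm
              · exact ha1a.symm
              · exact h2.symm
            · exact hb2
          · by_cases h3 : K.Adj a1 b1
            · exact ih (n + 1) (by omega) a1 b1 ha1 hb1 h3 hna1 hnb1
            · by_cases h4 : K.Adj a2 b2
              · exact ih n (by omega) a2 b2 ha2 hb2 h4 hna2 hnb2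
              · exfalso
                have far : ∀ x y, Conn K t x → dd K t x = n → dd K t y = n + 2 → ¬ K.Adj x y := by
                  intro x y hx hxn hyn hxy
                  have := dd_adj hx hxy
                  omega
                refine hP a2 a1 a b b1 b2 ha2a ha1a hab hb1b.symm hb2b.symm
                  (far _ _ ha2 hna2 hna) (far _ _ ha2 hna2 hnb) h1 h4 ?_ h3 (fun h => h2 h.symm) ?_
                  (fun h => far _ _ hb2 hnb2 hna h.symm) (fun h => far _ _ hb2 hnb2 hnb h.symm)
                · intro h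
                  exact hT _ _ _ ha1a hab h
                · intro h
                  exact hT _ _ _ h hb1b hab

/-- An odd closed walk yields a 5-cycle in the component. -/
lemma exists_cyc5 (hT : TriFree K) (hP : P6Free K) (t : α) (h : OddC K t t) :
    ∃ f, Cyc5 K f ∧ Conn K t (f 0) := by
  by_contra hcon
  have key : ∀ n a, Wk K n t a → (dd K t a) % 2 = n % 2 := by
    intro n
    induction n with
    | zero =>
      intro a ha
      have := ha.zero_inv
      subst this
      have : dd K t t = 0 := Nat.le_zero.1 (dd_le (Wk.refl t))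
      rw [this]
    | succ n ih =>
      intro a ha
      obtain ⟨b, hb, hba⟩ := ha.succ_inv
      have h1 := ih b hb
      have h2 := dd_adj ⟨n, hb⟩ hba
      have h3 := dd_adj ⟨n + 1, ha⟩ hba.symm
      have h4 : dd K t a ≠ dd K t b := by
        intro h4
        exact hcon (layer_edge hT hP t _ b a ⟨n, hb⟩ ⟨n + 1, ha⟩ hba rfl h4)
      omega
  obtain ⟨n, hn, hw⟩ := h
  have h1 := key n t hw
  have h2 := key 0 t (Wk.refl t)
  rw [Nat.odd_iff] at hn
  omega

lemma e11 : ∀ i : Fin 5, i + 1 + 1 = i + 2 := by decide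
lemma e21 : ∀ i : Fin 5, i + 2 + 1 = i + 3 := by decide
lemma e31 : ∀ i : Fin 5, i + 3 + 1 = i + 4 := by decide
lemma e41 : ∀ i : Fin 5, i + 4 + 1 = i := by decide
lemma e22 : ∀ i : Fin 5, i + 2 + 2 = i + 4 := by decide
lemma e32 : ∀ i : Fin 5, i + 3 + 2 = i := by decide
lemma e12 : ∀ i : Fin 5, i + 1 + 2 = i + 3 := by decide

lemma cyc5_ne (hT : TriFree K) {f : Fin 5 → α} (hf : Cyc5 K f) (i : Fin 5) :
    ¬ K.Adj (f i) (f (i + 2)) := by
  intro h
  have h2 := hf (i + 1)
  rw [e11] at h2
  exact hT _ _ _ (hf i) h2 h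

/-- No edge of the component of a 5-cycle lies outside the closed neighbourhood of the cycle. -/
lemma no_far_edge (hT : TriFree K) (hP : P6Free K) {f : Fin 5 → α} (hf : Cyc5 K f) :
    ∀ n y y', Wk K n (f 0) y → K.Adj y y' → (∀ i, ¬ K.Adj (f i) y) → (∀ i, ¬ K.Adj (f i) y') → False := by
  intro n
  induction n with
  | zero =>
    intro y y' h hyy' h1 h2
    have := h.zero_inv
    subst this
    exact h2 0 hyy'
  | succ n ih =>
    intro y y' h hyy' h1 h2
    obtain ⟨b, hb, hby⟩ := h.succ_inv
    by_cases h3 : ∀ i, ¬ K.Adj (f i) b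
    · exact ih b y hb hby h3 h1
    · push Not at h3
      obtain ⟨i, hi⟩ := h3
      -- b is adjacent to f i
      have caseB : ∀ j : Fin 5, K.Adj (f j) b → K.Adj (f (j + 2)) b → False := by
        intro j hj hj2
        have e1 : K.Adj (f (j + 2)) (f (j + 3)) := by
          have := hf (j + 2)
          rwa [e21 j] at this
        have e2 : K.Adj (f (j + 3)) (f (j + 4)) := by
          have := hf (j + 3)
          rwa [e31 j] at this
        have e3 : K.Adj (f (j + 4)) (f j) := by
          have := hf (j + 4)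
          rwa [e41 j] at this
        have n1 : ¬ K.Adj (f (j + 2)) (f (j + 4)) := by
          have := cyc5_ne hT hf (j + 2)
          rwa [e22 j] at this
        refine hP y' y b (f (j + 2)) (f (j + 3)) (f (j + 4)) hyy'.symm hby.symm hj2.symm e1 e2
          ?_ (fun h => h2 _ h.symm) (fun h => h2 _ h.symm) (fun h => h2 _ h.symm)
          (fun h => h1 _ h.symm) (fun h => h1 _ h.symm) (fun h => h1 _ h.symm) ?_ ?_ n1
        · intro h
          exact hT _ _ _ hyy'.symm hby.symm h
        · intro h
          exact hT _ _ _ hj2 h e1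
        · intro h
          exact hT _ _ _ h e3 hj.symm
      by_cases h4 : K.Adj (f (i + 2)) b
      · exact caseB i hi h4
      · by_cases h5 : K.Adj (f (i + 3)) b
        · apply caseB (i + 3) h5
          rwa [e32 i]
        · have e1 : K.Adj (f (i + 1)) (f (i + 2)) := by
            have := hf (i + 1)
            rwa [e11 i] at this
          have e2 : K.Adj (f (i + 2)) (f (i + 3)) := by
            have := hf (i + 2)
            rwa [e21 i] at this
          have n1 : ¬ K.Adj (f i) (f (i + 2)) := cyc5_ne hT hf i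
          have n2 : ¬ K.Adj (f (i + 1)) (f (i + 3)) := by
            have := cyc5_ne hT hf (i + 1)
            rwa [e12 i] at this
          have n3 : ¬ K.Adj (f i) (f (i + 3)) := by
            have := cyc5_ne hT hf (i + 3)
            rw [e32 i] at this
            exact fun h => this h.symm
          refine hP y b (f i) (f (i + 1)) (f (i + 2)) (f (i + 3)) hby.symm hi.symm (hf i) e1 e2
            (fun h => h1 _ h.symm) (fun h => h1 _ h.symm) (fun h => h1 _ h.symm) (fun h => h1 _ h.symm)
            ?_ (fun h => h4 h.symm) (fun h => h5 h.symm) n1 n3 n2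
          intro h
          exact hT _ _ _ hi h (hf i)

end

end Pool.Agent.Lib.MP_ada285_co
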