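import Mathlib
import Pool.Agent.Lib.MP_ada285_co.Walks

set_option autoImplicit false

namespace Pool.Agent.Lib.MP_ada285_co

open Classical

/-- restriction of `H` to the vertices `≤ t` -/
def R (H : SimpleGraph ℕ) (t : ℕ) : SimpleGraph ℕ where
  Adj a b := H.Adj a b ∧ a ≤ t ∧ b ≤ t
  symm := ⟨fun _ _ h => ⟨h.1.symm, h.2.2, h.2.1⟩⟩
  loopless := ⟨fun _ h => H.loopless.irrefl _ h.1⟩

variable {H K : SimpleGraph ℕ} {c c' : ℕ → ℕ} {t u : ℕ}

lemma R_adj {a b : ℕ} : (R H t).Adj a b ↔ H.Adj a b ∧ a ≤ t ∧ b ≤ t := Iff.rfl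

lemma R_R (h : u ≤ t) : R (R H t) u = R H u := by
  ext a b
  simp only [R_adj]
  constructor
  · rintro ⟨⟨h1, _, _⟩, h2, h3⟩; exact ⟨h1, h2, h3⟩
  · rintro ⟨h1, h2, h3⟩; exact ⟨⟨h1, by omega, by omega⟩, h2, h3⟩

lemma R_mono (h : u ≤ t) : ∀ x y, (R H u).Adj x y → (R H t).Adj x y := by
  rintro x y ⟨h1, h2, h3⟩
  exact ⟨h1, by omega, by omega⟩

lemma R_tri (hT : TriFree H) : TriFree (R H t) := fun a b c h1 h2 h3 => hT a b c h1.1 h2.1 h3.1

lemma R_p6 (hP : P6Free H) : P6Free (R H t) := by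
  intro a b c d e f hab hbc hcd hde hef h1 h2 h3 h4 h5 h6 h7 h8 h9 h10
  have ha := hab.2.1
  have hb := hab.2.2
  have hc := hcd.2.1
  have hd := hcd.2.2
  have he := hef.2.1
  have hf := hef.2.2
  have key : ∀ x y, x ≤ t → y ≤ t → ¬ (R H t).Adj x y → ¬ H.Adj x y :=
    fun x y hx hy h h' => h ⟨h', hx, hy⟩
  exact hP a b c d e f hab.1 hbc.1 hcd.1 hde.1 hef.1 (key _ _ ha hc h1) (key _ _ ha hd h2)
    (key _ _ ha he h3) (key _ _ ha hf h4) (key _ _ hb hd h5) (key _ _ hb he h6) (key _ _ hb hf h7)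
    (key _ _ hc he h8) (key _ _ hc hf h9) (key _ _ hd hf h10)

/-- colour `3 i` occurs, before `t`, on both sides of the component of `t` -/
def Mixed (K : SimpleGraph ℕ) (c : ℕ → ℕ) (t i : ℕ) : Prop :=
  ∃ x y, x < t ∧ y < t ∧ c x = 3 * i ∧ c y = 3 * i ∧ Conn K x t ∧ OddC K x y

/-- colour `3 i` occurs, before `t`, on the side opposite to `t` -/
def Opp (K : SimpleGraph ℕ) (c : ℕ → ℕ) (t i : ℕ) : Prop :=
  ∃ w, w < t ∧ c w = 3 * i ∧ OddC K w t

/-- the first non-mixed index -/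
noncomputable def lvl (K : SimpleGraph ℕ) (c : ℕ → ℕ) (t : ℕ) : ℕ := sInf {i | ¬ Mixed K c t i}

/-- the first vertex of the component of `t` that arrived in a non-bipartite component -/
noncomputable def root (K : SimpleGraph ℕ) (t : ℕ) : ℕ :=
  sInf {u | u ≤ t ∧ Conn K u t ∧ OddC (R K u) u u}

/-- a chosen 5-cycle -/
noncomputable def anchor (K : SimpleGraph ℕ) (r : ℕ) : Fin 5 → ℕ :=
  if h : ∃ f, Cyc5 K f ∧ Conn K r (f 0) then h.choose else fun _ => 0

/-- the type of `t` with respect to a 5-cycle -/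
noncomputable def typ (K : SimpleGraph ℕ) (t : ℕ) (f : Fin 5 → ℕ) : ℕ :=
  sInf ({i | ∃ h : i < 5, K.Adj t (f ⟨i, h⟩)} ∪ {5})

/-- the colouring rule -/
noncomputable def rule (t : ℕ) (K : SimpleGraph ℕ) (c : ℕ → ℕ) : ℕ :=
  if OddC K t t then 3 * typ K t (anchor (R K (root K t)) (root K t)) + 2
  else if Opp K c t (lvl K c t) then 3 * lvl K c t + 1 else 3 * lvl K c t

lemma Mixed_congr (h : ∀ j < t, c j = c' j) (i : ℕ) : Mixed K c t i ↔ Mixed K c' t i := by
  constructor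
  · rintro ⟨x, y, hx, hy, hcx, hcy, h1, h2⟩
    exact ⟨x, y, hx, hy, by rw [← h x hx]; exact hcx, by rw [← h y hy]; exact hcy, h1, h2⟩
  · rintro ⟨x, y, hx, hy, hcx, hcy, h1, h2⟩
    exact ⟨x, y, hx, hy, by rw [h x hx]; exact hcx, by rw [h y hy]; exact hcy, h1, h2⟩

lemma Opp_congr (h : ∀ j < t, c j = c' j) (i : ℕ) : Opp K c t i ↔ Opp K c' t i := by
  constructor
  · rintro ⟨x, hx, hcx, h1⟩
    exact ⟨x, hx, by rw [← h x hx]; exact hcx, h1⟩
  · rintro ⟨x, hx, hcx, h1⟩
    exact ⟨x, hx, by rw [h x hx]; exact hcx, h1⟩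

lemma rule_congr (h : ∀ j < t, c j = c' j) : rule t K c = rule t K c' := by
  have h1 : lvl K c t = lvl K c' t := by
    unfold lvl
    congr 1
    ext i
    simp only [Set.mem_ofPred_eq]
    rw [Mixed_congr h]
  unfold rule
  rw [h1]
  simp only [Opp_congr h]

/-- the colours produced by the rule -/
noncomputable def col (H : SimpleGraph ℕ) : ℕ → ℕ
  | t => rule t (R H t) (fun j => if _h : j < t then col H j else 0)

lemma col_eq (H : SimpleGraph ℕ) (t : ℕ) : col H t = rule t (R H t) (col H) := by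
  rw [col]
  apply rule_congr
  intro j hj
  rw [dif_pos hj]

lemma not_mixed_lvl : ¬ Mixed K c t (lvl K c t) := by
  have hne : {i | ¬ Mixed K c t i}.Nonempty := by
    refine ⟨∑ j ∈ Finset.range t, c j + 1, ?_⟩
    rintro ⟨x, y, hx, hy, hcx, hcy, h1, h2⟩
    have : c x ≤ ∑ j ∈ Finset.range t, c j :=
      Finset.single_le_sum (f := c) (fun _ _ => Nat.zero_le _) (Finset.mem_range.2 hx)
    omega
  exact Nat.sInf_mem hne

lemma mixed_of_lt_lvl {i : ℕ} (h : i < lvl K c t) : Mixed K c t i := by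
  by_contra hcon
  have : lvl K c t ≤ i := Nat.sInf_le hcon
  omega

/-- abbreviation: the level of vertex `t` -/
noncomputable def lv (H : SimpleGraph ℕ) (t : ℕ) : ℕ := lvl (R H t) (col H) t

/-- colour `3 i` is mixed at time `t` -/
def Mx (H : SimpleGraph ℕ) (t i : ℕ) : Prop := Mixed (R H t) (col H) t i

lemma col_bip (h : ¬ OddC (R H t) t t) :
    (Opp (R H t) (col H) t (lv H t) ∧ col H t = 3 * lv H t + 1) ∨
    (¬ Opp (R H t) (col H) t (lv H t) ∧ col H t = 3 * lv H t) := by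
  rw [col_eq]
  unfold rule
  rw [if_neg h]
  by_cases h1 : Opp (R H t) (col H) t (lvl (R H t) (col H) t)
  · left; exact ⟨h1, by rw [if_pos h1]; rfl⟩
  · right; exact ⟨h1, by rw [if_neg h1]; rfl⟩

lemma col_nonbip (h : OddC (R H t) t t) :
    col H t = 3 * typ (R H t) t (anchor (R H (root (R H t) t)) (root (R H t) t)) + 2 := by
  rw [col_eq]
  unfold rule
  rw [if_pos h]
  have : root (R H t) t ≤ t := by
    have hne : {u | u ≤ t ∧ Conn (R H t) u t ∧ OddC (R (R H t) u) u u}.Nonempty :=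
      ⟨t, le_rfl, Conn.refl t, by rw [R_R le_rfl]; exact h⟩
    exact (Nat.sInf_mem hne).1
  rw [R_R this]

lemma root_spec (h : OddC (R H t) t t) :
    root (R H t) t ≤ t ∧ Conn (R H t) (root (R H t) t) t ∧
      OddC (R H (root (R H t) t)) (root (R H t) t) (root (R H t) t) := by
  have hne : {u | u ≤ t ∧ Conn (R H t) u t ∧ OddC (R (R H t) u) u u}.Nonempty :=
    ⟨t, le_rfl, Conn.refl t, by rw [R_R le_rfl]; exact h⟩
  have h1 : root (R H t) t ∈ {u | u ≤ t ∧ Conn (R H t) u t ∧ OddC (R (R H t) u) u u} :=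
    Nat.sInf_mem hne
  have h2 : root (R H t) t ≤ t := h1.1
  refine ⟨h2, h1.2.1, ?_⟩
  have h3 := h1.2.2
  rwa [R_R h2] at h3

lemma root_le (h : u ≤ t) (h1 : Conn (R H t) u t) (h2 : OddC (R H u) u u) :
    root (R H t) t ≤ u := by
  apply Nat.sInf_le
  exact ⟨h, h1, by rw [R_R h]; exact h2⟩

lemma anchor_spec (hT : TriFree H) (hP : P6Free H) {r : ℕ} (h : OddC (R H r) r r) :
    Cyc5 (R H r) (anchor (R H r) r) ∧ Conn (R H r) r (anchor (R H r) r 0) := by
  have hex : ∃ f, Cyc5 (R H r) f ∧ Conn (R H r) r (f 0) := exists_cyc5 (R_tri hT) (R_p6 hP) r h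
  unfold anchor
  rw [dif_pos hex]
  exact hex.choose_spec

lemma cyc5_conn {α : Type} {K : SimpleGraph α} {f : Fin 5 → α} (hf : Cyc5 K f) (i : Fin 5) :
    Conn K (f 0) (f i) := by
  have h1 : Conn K (f 0) (f 1) := Conn.of_adj (hf 0)
  have h2 : Conn K (f 1) (f 2) := Conn.of_adj (hf 1)
  have h3 : Conn K (f 2) (f 3) := Conn.of_adj (hf 2)
  have h4 : Conn K (f 3) (f 4) := Conn.of_adj (hf 3)
  fin_cases i
  · exact Conn.refl _
  · exact h1
  · exact h1.trans h2
  · exact (h1.trans h2).trans h3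
  · exact ((h1.trans h2).trans h3).trans h4

lemma odd_of_adj (hut : u < t) (hadj : H.Adj u t) (h : OddC (R H u) u u) : OddC (R H t) t t := by
  have h1 : (R H t).Adj u t := ⟨hadj, hut.le, le_rfl⟩
  have h2 : OddC (R H t) u u := h.mono (R_mono hut.le)
  exact ((OddC.of_adj h1.symm).trans_odd h2).trans_odd (OddC.of_adj h1)

lemma root_eq (hT : TriFree H) (hP : P6Free H) (hut : u < t) (hadj : H.Adj u t)
    (hu : OddC (R H u) u u) : root (R H t) t = root (R H u) u := by
  have ht := odd_of_adj hut hadj hu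
  obtain ⟨a1, a2, a3⟩ := root_spec ht
  obtain ⟨b1, b2, b3⟩ := root_spec hu
  set r := root (R H t) t with hr
  set r' := root (R H u) u with hr'
  have hadj' : (R H t).Adj u t := ⟨hadj, hut.le, le_rfl⟩
  have hr't : Conn (R H t) r' t := (b2.mono (R_mono hut.le)).trans (Conn.of_adj hadj')
  have hle : r ≤ r' := root_le (by omega) hr't b3
  by_contra hne
  have hlt : r < r' := lt_of_le_of_ne hle hne
  have hnc : ¬ Conn (R H u) r u := by
    intro hc
    have : r' ≤ r := root_le (by omega) hc a3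
    omega
  obtain ⟨f1, f2⟩ := anchor_spec hT hP a3
  obtain ⟨g1, g2⟩ := anchor_spec hT hP b3
  set f := anchor (R H r) r with hf
  set g := anchor (R H r') r' with hg
  have hno : ∀ i j, ¬ (R H t).Adj (f i) (g j) := by
    intro i j hij
    have hfi : f i ≤ r := (f1 i).2.1
    have hgj : g j ≤ r' := (g1 j).2.1
    have e1 : Conn (R H u) r (f i) :=
      (f2.mono (R_mono (by omega))).trans ((cyc5_conn f1 i).mono (R_mono (by omega)))
    have e2 : Conn (R H u) (g j) r' :=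
      ((g2.trans (cyc5_conn g1 j)).symm).mono (R_mono (by omega))
    have e3 : (R H u).Adj (f i) (g j) := ⟨hij.1, by omega, by omega⟩
    exact hnc (((e1.trans (Conn.of_adj e3)).trans e2).trans b2)
  have hf' : Cyc5 (R H t) f := fun i => R_mono (by omega) _ _ (f1 i)
  have hgadj : (R H t).Adj (g 0) (g 1) := R_mono (by omega) _ _ (g1 0)
  have hconn : Conn (R H t) (f 0) (g 0) := by
    have e1 : Conn (R H t) (f 0) r := (f2.symm).mono (R_mono (by omega))
    have e2 : Conn (R H t) r' (g 0) := g2.mono (R_mono (by omega))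
    exact ((e1.trans a2).trans hr't.symm).trans e2
  obtain ⟨n, hn⟩ := hconn
  exact no_far_edge (R_tri hT) (R_p6 hP) hf' n (g 0) (g 1) hn hgadj (fun i => hno i 0) (fun i => hno i 1)

lemma typ_mem (K : SimpleGraph ℕ) (t : ℕ) (f : Fin 5 → ℕ) :
    (∃ h : typ K t f < 5, K.Adj t (f ⟨typ K t f, h⟩)) ∨
      (typ K t f = 5 ∧ ∀ i, ¬ K.Adj t (f i)) := by
  have hne : ({i | ∃ h : i < 5, K.Adj t (f ⟨i, h⟩)} ∪ {5} : Set ℕ).Nonempty := ⟨5, Or.inr rfl⟩
  have h1 : typ K t f ∈ ({i | ∃ h : i < 5, K.Adj t (f ⟨i, h⟩)} ∪ {5} : Set ℕ) := Nat.sInf_mem hne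
  rcases h1 with h1 | h1
  · exact Or.inl h1
  · right
    have h1' : typ K t f = 5 := h1
    refine ⟨h1', ?_⟩
    intro i hi
    have : typ K t f ≤ i.val := Nat.sInf_le (Or.inl ⟨i.isLt, hi⟩)
    have := i.isLt
    omega

lemma typ_le (K : SimpleGraph ℕ) (t : ℕ) (f : Fin 5 → ℕ) : typ K t f ≤ 5 :=
  Nat.sInf_le (Or.inr rfl)

/-- The colouring is proper. -/
theorem col_proper (hT : TriFree H) (hP : P6Free H) (hut : u < t) (hadj : H.Adj u t) :
    col H u ≠ col H t := by
  have hadj' : (R H t).Adj u t := ⟨hadj, hut.le, le_rfl⟩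
  by_cases hu : OddC (R H u) u u
  · have ht := odd_of_adj hut hadj hu
    have hroot := root_eq hT hP hut hadj hu
    obtain ⟨b1, b2, b3⟩ := root_spec hu
    rw [col_nonbip hu, col_nonbip ht, hroot]
    obtain ⟨f1, f2⟩ := anchor_spec hT hP b3
    set r := root (R H u) u with hr
    set f := anchor (R H r) r with hf
    intro heq
    have heq' : typ (R H u) u f = typ (R H t) t f := by omega
    rcases typ_mem (R H u) u f with ⟨h1, h2⟩ | ⟨h1, h2⟩
    · rcases typ_mem (R H t) t f with ⟨h3, h4⟩ | ⟨h3, h4⟩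
      · have e : (⟨typ (R H t) t f, h3⟩ : Fin 5) = ⟨typ (R H u) u f, h1⟩ := by
          apply Fin.ext; exact heq'.symm
        rw [e] at h4
        exact hT _ _ _ h2.1.symm hadj h4.1.symm
      · omega
    · rcases typ_mem (R H t) t f with ⟨h3, h4⟩ | ⟨h3, h4⟩
      · omega
      · have hf' : Cyc5 (R H t) f := fun i => R_mono (by omega) _ _ (f1 i)
        have hconn : Conn (R H t) (f 0) u := by
          have e1 : Conn (R H t) (f 0) r := (f2.symm).mono (R_mono (by omega))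
          exact e1.trans (b2.mono (R_mono hut.le))
        obtain ⟨n, hn⟩ := hconn
        refine no_far_edge (R_tri hT) (R_p6 hP) hf' n u t hn hadj' ?_ ?_
        · intro i hi
          have hfi : f i ≤ r := (f1 i).2.1
          exact h2 i ⟨hi.1.symm, le_rfl, by omega⟩
        · intro i hi
          exact h4 i hi.symm
  · by_cases ht : OddC (R H t) t t
    · rw [col_nonbip ht]
      rcases col_bip hu with ⟨_, h⟩ | ⟨_, h⟩ <;> rw [h] <;> omega
    · intro heq
      rcases col_bip hu with ⟨h1, h2⟩ | ⟨h1, h2⟩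
      · rcases col_bip ht with ⟨h3, h4⟩ | ⟨h3, h4⟩
        · have hlv : lv H u = lv H t := by omega
          obtain ⟨w, hw1, hw2, hw3⟩ := h1
          obtain ⟨w', hw1', hw2', hw3'⟩ := h3
          have e1 : OddC (R H t) w u := hw3.mono (R_mono hut.le)
          have e2 : EvenC (R H t) w t := e1.trans_odd (OddC.of_adj hadj')
          have e3 : OddC (R H t) w w' := e2.trans_odd hw3'.symm
          have : Mixed (R H t) (col H) t (lvl (R H t) (col H) t) := by
            refine ⟨w, w', by omega, hw1', ?_, hw2', e2.conn, e3⟩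
            rw [hw2]
            show 3 * lv H u = 3 * lv H t
            rw [hlv]
          exact not_mixed_lvl this
        · omega
      · rcases col_bip ht with ⟨h3, h4⟩ | ⟨h3, h4⟩
        · omega
        · apply h3
          exact ⟨u, hut, by omega, OddC.of_adj hadj'⟩

end Pool.Agent.Lib.MP_ada285_co
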