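import Mathlib
import Pool.Agent.Lib.MP_ada285_co.Algo

set_option autoImplicit false

namespace Pool.Agent.Lib.MP_ada285_co

variable {H : SimpleGraph ℕ}

lemma col_three {x i : ℕ} (h : col H x = 3 * i) :
    ¬ OddC (R H x) x x ∧ lv H x = i ∧ ¬ Opp (R H x) (col H) x i := by
  have hb : ¬ OddC (R H x) x x := by
    intro hb
    rw [col_nonbip hb] at h
    omega
  rcases col_bip hb with ⟨h1, h2⟩ | ⟨h1, h2⟩
  · omega
  · have : lv H x = i := by omega
    refine ⟨hb, this, ?_⟩
    rw [← this]; exact h1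

lemma mx_of_lt {x j : ℕ} (h : j < lv H x) : Mx H x j := mixed_of_lt_lvl h

lemma mx_mono {u t i : ℕ} (h : Mx H u i) (hut : u ≤ t) (hc : Conn (R H t) u t) : Mx H t i := by
  obtain ⟨x, y, hx, hy, hcx, hcy, h1, h2⟩ := h
  exact ⟨x, y, by omega, by omega, hcx, hcy, (h1.mono (R_mono hut)).trans hc, h2.mono (R_mono hut)⟩

/-- `f` is the first vertex of its component at which colour `3 j` is mixed -/
def Founder (H : SimpleGraph ℕ) (j f : ℕ) : Prop :=
  Mx H f j ∧ ∀ u, u < f → Conn (R H f) u f → ¬ Mx H u j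

lemma exists_founder {t j : ℕ} (h : Mx H t j) :
    ∃ f, f ≤ t ∧ Conn (R H t) f t ∧ Founder H j f := by
  have hne : {u | u ≤ t ∧ Conn (R H t) u t ∧ Mx H u j}.Nonempty := ⟨t, le_rfl, Conn.refl t, h⟩
  have hm : sInf {u | u ≤ t ∧ Conn (R H t) u t ∧ Mx H u j} ∈
      {u | u ≤ t ∧ Conn (R H t) u t ∧ Mx H u j} := Nat.sInf_mem hne
  set f := sInf {u | u ≤ t ∧ Conn (R H t) u t ∧ Mx H u j} with hf
  refine ⟨f, hm.1, hm.2.1, hm.2.2, ?_⟩
  intro u hu hc hmx
  have : f ≤ u := Nat.sInf_le ⟨by have := hm.1; omega, (hc.mono (R_mono hm.1)).trans hm.2.1, hmx⟩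
  omega

lemma founder_col {j f : ℕ} (h : Founder H j f) (hb : ¬ OddC (R H f) f f) :
    col H f = 3 * (j + 1) := by
  obtain ⟨h1, h2⟩ := h
  have hmx : ∀ i, i ≤ j → Mx H f i := by
    intro i hi
    rcases hi.lt_or_eq with hi | hi
    · obtain ⟨x, y, hx, hy, hcx, hcy, h3, h4⟩ := h1
      have hl := (col_three hcx).2.1
      exact mx_mono (mx_of_lt (by omega)) hx.le h3
    · subst hi; exact h1
  have hnot : ∀ x, x < f → Conn (R H f) x f → col H x ≠ 3 * (j + 1) := by
    intro x hx hc hcx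
    have hl := (col_three hcx).2.1
    exact h2 x hx hc (mx_of_lt (by omega))
  have hlv : lv H f = j + 1 := by
    have h5 : lv H f ≤ j + 1 := by
      apply Nat.sInf_le
      rintro ⟨x, y, hx, hy, hcx, hcy, h3, h4⟩
      exact hnot x hx h3 hcx
    have h6 : ¬ lv H f ≤ j := by
      intro h6
      exact not_mixed_lvl (hmx _ h6)
    omega
  rcases col_bip hb with ⟨h3, h4⟩ | ⟨h3, h4⟩
  · exfalso
    obtain ⟨w, hw, hcw, hodd⟩ := h3
    rw [hlv] at hcw
    exact hnot w hw hodd.conn hcw
  · rw [h4, hlv]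

lemma avoid {u n a b : ℕ} (h : Wk (R H u) n a b) :
    Wk (R H (u - 1)) n a b ∨ Conn (R H u) a u := by
  induction h with
  | refl => exact Or.inl (Wk.refl _)
  | @step n a b c hw hadj ih =>
    rcases ih with ih | ih
    · by_cases hb : b = u
      · right; subst hb; exact ⟨_, hw⟩
      · by_cases hc : c = u
        · right; subst hc; exact ⟨_, hw.step hadj⟩
        · left
          have h2 := hadj.2.1
          have h3 := hadj.2.2
          exact ih.step ⟨hadj.1, by omega, by omega⟩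
    · exact Or.inr ih

lemma not_even_odd {K : SimpleGraph ℕ} {a b f : ℕ} (hb : ¬ OddC K f f) (hc : Conn K a f)
    (h1 : OddC K a b) (h2 : EvenC K a b) : False := by
  have h3 : OddC K a a := h1.trans_even h2.symm
  rcases hc.odd_or_even with h4 | h4
  · exact hb (h4.symm.trans_even (EvenC.refl _) |>.trans_odd h3 |>.trans_odd h4)
  · exact hb ((h4.symm.trans_odd h3).trans_even h4)

lemma founder_sep {j f x y : ℕ} (h : Founder H j f) (hb : ¬ OddC (R H f) f f)
    (hx : x < f) (hy : y < f) (hcx : col H x = 3 * j) (hcy : col H y = 3 * j)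
    (hxf : Conn (R H f) x f) (hodd : OddC (R H f) x y) : ¬ Conn (R H (f - 1)) x y := by
  intro hcon
  have hne : {u | Conn (R H u) x y}.Nonempty := ⟨_, hcon⟩
  have hm : Conn (R H (sInf {u | Conn (R H u) x y})) x y := Nat.sInf_mem hne
  have hle : sInf {u | Conn (R H u) x y} ≤ f - 1 := Nat.sInf_le hcon
  have hmin : ∀ v, Conn (R H v) x y → sInf {u | Conn (R H u) x y} ≤ v := fun v hv => Nat.sInf_le hv
  set u := sInf {u | Conn (R H u) x y} with hu
  have hxy : x ≠ y := by
    rintro rfl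
    exact not_even_odd hb hxf hodd (EvenC.refl _)
  have huf : u < f := by omega
  -- x, y ≤ u
  have hends : ∀ a b, a ≠ b → Conn (R H u) a b → b ≤ u := by
    intro a b hab hc
    obtain ⟨n, hn⟩ := hc
    rcases n with _ | n
    · exact absurd hn.zero_inv hab
    · obtain ⟨c, _, hcb⟩ := hn.succ_inv
      exact hcb.2.2
  have hyu : y ≤ u := hends x y hxy hm
  have hxu : x ≤ u := hends y x hxy.symm hm.symm
  -- x is connected to u at time u
  have hxcu : Conn (R H u) x u := by
    obtain ⟨n, hn⟩ := hm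
    rcases avoid hn with h1 | h1
    · have h2 := hmin (u - 1) ⟨n, h1⟩
      have h3 : u = 0 := by omega
      have : x = 0 := by omega
      have : y = 0 := by omega
      omega
    · exact h1
  have hycu : Conn (R H u) y u := hm.symm.trans hxcu
  have hoddu : OddC (R H u) x y := by
    rcases hm.odd_or_even with h1 | h1
    · exact h1
    · exact absurd (h1.mono (R_mono huf.le)) (fun h2 => not_even_odd hb hxf hodd h2)
  by_cases h1 : x = u
  · obtain ⟨_, _, h3⟩ := col_three hcx
    apply h3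
    refine ⟨y, by omega, hcy, ?_⟩
    rw [h1] at hoddu ⊢
    exact hoddu.symm
  · by_cases h2 : y = u
    · obtain ⟨_, _, h3⟩ := col_three hcy
      apply h3
      refine ⟨x, by omega, hcx, ?_⟩
      rw [h2] at hoddu ⊢
      exact hoddu
    · have hmx : Mx H u j := ⟨x, y, by omega, by omega, hcx, hcy, hxcu, hoddu⟩
      refine h.2 u huf ?_ hmx
      exact (hxcu.mono (R_mono huf.le)).symm.trans hxf

lemma founder_split {j f : ℕ} (h : Founder H (j + 1) f) (hb : ¬ OddC (R H f) f f) :
    ∃ x y, x < f ∧ y < f ∧ Founder H j x ∧ Founder H j y ∧ OddC (R H f) x y ∧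
      Conn (R H f) x f ∧ Conn (R H f) y f ∧ ¬ Conn (R H (f - 1)) x y := by
  obtain ⟨x0, y0, hx0, hy0, hcx0, hcy0, hc, hodd⟩ := h.1
  have key : ∀ z0, z0 < f → col H z0 = 3 * (j + 1) → Conn (R H f) z0 f →
      ∃ z, z ≤ z0 ∧ Founder H j z ∧ EvenC (R H f) z z0 ∧ col H z = 3 * (j + 1) := by
    intro z0 hz0 hcz0 hcon
    obtain ⟨hb0, hl0, hop⟩ := col_three hcz0
    have hmx : Mx H z0 j := mx_of_lt (by omega)
    obtain ⟨z, hz, hczz0, hfz⟩ := exists_founder hmx
    have hbz : ¬ OddC (R H z) z z := by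
      intro hbz
      apply hb0
      have h1 : OddC (R H z0) z z := hbz.mono (R_mono hz)
      rcases hczz0.odd_or_even with h2 | h2
      · exact (h2.symm.trans_odd h1).trans_odd h2
      · exact (h2.symm.trans_odd h1).trans_even h2
    have hcz := founder_col hfz hbz
    refine ⟨z, hz, hfz, ?_, hcz⟩
    rcases hczz0.odd_or_even with h2 | h2
    · exfalso
      rcases hz.lt_or_eq with h3 | h3
      · exact hop ⟨z, h3, hcz, h2⟩
      · subst h3; exact hb0 h2
    · exact h2.mono (R_mono hz0.le)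
  obtain ⟨x, hx, hfx, hex, hcx⟩ := key x0 hx0 hcx0 hc
  obtain ⟨y, hy, hfy, hey, hcy⟩ := key y0 hy0 hcy0 (hodd.conn.symm.trans hc)
  have hxy : OddC (R H f) x y := (hex.trans_odd hodd).trans_even hey.symm
  have hxf : Conn (R H f) x f := hex.conn.trans hc
  refine ⟨x, y, by omega, by omega, hfx, hfy, hxy, hxf, hxy.conn.symm.trans hxf, ?_⟩
  exact founder_sep h hb (by omega) (by omega) hcx hcy hxf hxy

lemma reach_last {f x n b : ℕ} (hx : x ≠ f) (h : Wk (R H f) n x b) :
    (Conn (R H (f - 1)) x b ∧ b ≠ f) ∨ ∃ z, Conn (R H (f - 1)) x z ∧ (R H f).Adj z f := by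
  induction h with
  | refl => exact Or.inl ⟨Conn.refl _, hx⟩
  | @step n a b c hw hadj ih =>
    rcases ih hx with ⟨h1, h2⟩ | h1
    · by_cases hc : c = f
      · right; subst hc; exact ⟨b, h1, hadj⟩
      · left
        refine ⟨?_, hc⟩
        have h3 := hadj.2.1
        have h4 := hadj.2.2
        have h5 : (R H (f - 1)).Adj b c := ⟨hadj.1, by omega, by omega⟩
        exact h1.trans (Conn.of_adj h5)
    · exact Or.inr h1

lemma nbr_in_comp {f x : ℕ} (hx : x ≠ f) (h : Conn (R H f) x f) :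
    ∃ z, Conn (R H (f - 1)) x z ∧ (R H f).Adj z f := by
  obtain ⟨n, hn⟩ := h
  rcases reach_last hx hn with ⟨_, h2⟩ | h1
  · exact absurd rfl h2
  · exact h1

lemma has_nbr {K : SimpleGraph ℕ} {a b c : ℕ} (h : Conn K a b) (hac : K.Adj a c) :
    ∃ d, K.Adj b d := by
  obtain ⟨n, hn⟩ := h
  rcases n with _ | n
  · have := hn.zero_inv
    subst this
    exact ⟨c, hac⟩
  · obtain ⟨d, _, hd⟩ := hn.succ_inv
    exact ⟨d, hd.symm⟩

/-- completeness of the merging vertex -/
lemma complete_side (hT : TriFree H) (hP : P6Free H) {f x y y1 : ℕ} (hb : ¬ OddC (R H f) f f)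
    (hx : x < f) (hy : y < f) (hxf : Conn (R H f) x f) (hyf : Conn (R H f) y f)
    (hsep : ¬ Conn (R H (f - 1)) x y) (hy1 : (R H (f - 1)).Adj y y1) :
    ∀ u, Conn (R H (f - 1)) x u → OddC (R H f) u f → H.Adj u f := by
  obtain ⟨z, hxz, hzf⟩ := nbr_in_comp (by omega) hxf
  obtain ⟨n2, hyn2, hn2f⟩ := nbr_in_comp (by omega) hyf
  obtain ⟨z2, hz2⟩ := has_nbr hyn2 hy1
  have hcross : ∀ a b, Conn (R H (f - 1)) x a → Conn (R H (f - 1)) y b → a ≤ f - 1 → b ≤ f - 1 →
      ¬ H.Adj a b := by
    intro a b ha hb' hle1 hle2 hab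
    have : (R H (f - 1)).Adj a b := ⟨hab, hle1, hle2⟩
    exact hsep ((ha.trans (Conn.of_adj this)).trans hb'.symm)
  have hmono : ∀ a b, (R H (f - 1)).Adj a b → (R H f).Adj a b := R_mono (by omega)
  have hn2le : n2 ≤ f - 1 := hz2.2.1
  have hz2le : z2 ≤ f - 1 := hz2.2.2
  have hyz2 : Conn (R H (f - 1)) y z2 := hyn2.trans (Conn.of_adj hz2)
  have main : ∀ k u, Wk (R H (f - 1)) (2 * k) z u → H.Adj u f := by
    intro k
    induction k with
    | zero =>
      intro u hu
      have := hu.zero_inv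
      subst this
      exact hzf.1
    | succ k ih =>
      intro u hu
      obtain ⟨w', hw', hw'u⟩ := hu.succ_inv
      obtain ⟨w, hw, hww'⟩ := hw'.succ_inv
      have hwf := ih w hw
      by_contra huf
      have cw : Conn (R H (f - 1)) x w := hxz.trans ⟨_, hw⟩
      have cw' : Conn (R H (f - 1)) x w' := hxz.trans ⟨_, hw'⟩
      have cu : Conn (R H (f - 1)) x u := hxz.trans ⟨_, hu⟩
      have lw : w ≤ f - 1 := hww'.2.1
      have lw' : w' ≤ f - 1 := hww'.2.2
      have lu : u ≤ f - 1 := hw'u.2.2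
      refine hP u w' w f n2 z2 hw'u.1.symm hww'.1.symm hwf hn2f.1.symm hz2.1 ?_ huf
        (hcross _ _ cu hyn2 lu hn2le) (hcross _ _ cu hyz2 lu hz2le) ?_
        (hcross _ _ cw' hyn2 lw' hn2le) (hcross _ _ cw' hyz2 lw' hz2le)
        (hcross _ _ cw hyn2 lw hn2le) (hcross _ _ cw hyz2 lw hz2le) ?_
      · intro h
        exact hT _ _ _ hw'u.1.symm hww'.1.symm h
      · intro h
        exact hT _ _ _ hww'.1.symm hwf h
      · intro h
        exact hT _ _ _ hn2f.1.symm hz2.1 h
  intro u hu hodd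
  obtain ⟨n, hn⟩ := hxz.symm.trans hu
  rcases Nat.even_or_odd n with he | ho
  · obtain ⟨k, hk⟩ := he
    apply main k u
    rw [show 2 * k = n by omega]
    exact hn
  · exfalso
    have h1 : OddC (R H f) z u := ⟨n, ho, hn.mono hmono⟩
    have h2 : OddC (R H f) f z := OddC.of_adj hzf.symm
    exact hb ((h2.trans_odd h1).trans_odd hodd)

/-- a proper two-colouring of the component of `f` at time `f` -/
def Proper2 (H : SimpleGraph ℕ) (f : ℕ) (sd : ℕ → Bool) : Prop :=
  ∀ a b, Conn (R H f) a f → (R H f).Adj a b → sd a ≠ sd b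

lemma proper2_wk {f : ℕ} {sd : ℕ → Bool} (h : Proper2 H f sd) {n a b : ℕ}
    (hw : Wk (R H f) n a b) (hc : Conn (R H f) a f) :
    (Even n → sd a = sd b) ∧ (Odd n → sd a ≠ sd b) := by
  induction hw with
  | refl => exact ⟨fun _ => rfl, fun h => absurd h (by decide)⟩
  | @step n a b c hw hadj ih =>
    obtain ⟨h1, h2⟩ := ih hc
    have hbf : Conn (R H f) b f := (Conn.symm ⟨_, hw⟩).trans hc
    have h3 := h b c hbf hadj
    constructor
    · intro he
      have : Odd n := by
        rw [Nat.even_add_one] at he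
        exact Nat.not_even_iff_odd.1 he
      have h4 := h2 this
      cases hsa : sd a <;> cases hsb : sd b <;> cases hsc : sd c <;> simp_all
    · intro ho
      have : Even n := by
        rw [Nat.odd_add_one] at ho
        exact Nat.not_odd_iff_even.1 ho
      rw [h1 this]
      exact h3

lemma proper2_odd {f a b : ℕ} {sd : ℕ → Bool} (h : Proper2 H f sd) (hc : Conn (R H f) a f)
    (ho : OddC (R H f) a b) : sd a ≠ sd b := by
  obtain ⟨n, hn, hw⟩ := ho
  exact (proper2_wk h hw hc).2 hn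

lemma proper2_even {f a b : ℕ} {sd : ℕ → Bool} (h : Proper2 H f sd) (hc : Conn (R H f) a f)
    (ho : EvenC (R H f) a b) : sd a = sd b := by
  obtain ⟨n, hn, hw⟩ := ho
  exact (proper2_wk h hw hc).1 hn

/-- the tree graph on words: comparable words on different sides -/
def Cmp {β : Type} (s s' : List β) : Prop := s <:+ s' ∨ s' <:+ s

lemma cmp_concat {β : Type} {r r' : List β} {b : β} : Cmp (r ++ [b]) (r' ++ [b]) ↔ Cmp r r' := by
  have key : ∀ r r' : List β, (r ++ [b]) <:+ (r' ++ [b]) ↔ r <:+ r' := by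
    intro r r'
    constructor
    · rintro ⟨t, ht⟩
      refine ⟨t, ?_⟩
      rw [← List.append_assoc] at ht
      exact List.append_cancel_right ht
    · rintro ⟨t, ht⟩
      exact ⟨t, by rw [← List.append_assoc, ht]⟩
  unfold Cmp
  rw [key, key]

lemma cmp_concat_ne {β : Type} {r r' : List β} {b b' : β} (h : b ≠ b') :
    ¬ Cmp (r ++ [b]) (r' ++ [b']) := by
  have key : ∀ (r r' : List β) (b b' : β), b ≠ b' → ¬ ((r ++ [b]) <:+ (r' ++ [b'])) := by
    intro r r' b b' h
    rintro ⟨t, ht⟩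
    rw [← List.append_assoc] at ht
    have := (List.append_inj' ht rfl).2
    simp at this
    exact h this
  rintro (h1 | h1)
  · exact key _ _ _ _ h h1
  · exact key _ _ _ _ (Ne.symm h) h1

/-- The tree structure inside a founder's component. -/
structure TreeMap (H : SimpleGraph ℕ) (j f : ℕ) (sd : ℕ → Bool) (F : List Bool → ℕ) : Prop where
  root : F [] = f
  conn : ∀ s, s.length ≤ j → Conn (R H f) (F s) f
  le : ∀ s, s.length ≤ j → F s ≤ f
  side : ∀ s, s ≠ [] → s.length ≤ j → sd (F s) = s.headD false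
  inj : ∀ s s', s.length ≤ j → s'.length ≤ j → F s = F s' → s = s'
  adj : ∀ s s', s.length ≤ j → s'.length ≤ j →
    (H.Adj (F s) (F s') ↔ Cmp s s' ∧ sd (F s) ≠ sd (F s'))

theorem exists_tree (hT : TriFree H) (hP : P6Free H) :
    ∀ j f, Founder H j f → ¬ OddC (R H f) f f → ∀ sd, Proper2 H f sd →
      ∃ F, TreeMap H j f sd F := by
  intro j
  induction j with
  | zero =>
    intro f _ _ sd _
    refine ⟨fun _ => f, rfl, fun _ _ => Conn.refl f, fun _ _ => le_rfl, ?_, ?_, ?_⟩
    · intro s hs hl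
      exact absurd (List.length_eq_zero_iff.1 (Nat.le_zero.1 hl)) hs
    · intro s s' hl hl' _
      rw [List.length_eq_zero_iff.1 (Nat.le_zero.1 hl), List.length_eq_zero_iff.1 (Nat.le_zero.1 hl')]
    · intro s s' _ _
      simp
  | succ j ih =>
    intro f hf hb sd hsd
    obtain ⟨x, y, hx, hy, hfx, hfy, hxy, hxf, hyf, hsep⟩ := founder_split hf hb
    have hbz : ∀ z, z < f → Conn (R H f) z f → ¬ OddC (R H z) z z := by
      intro z hz hc ho
      exact not_even_odd hb hc (ho.mono (R_mono hz.le)) (EvenC.refl _)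
    have hsz : ∀ z, z < f → Conn (R H f) z f → Proper2 H z sd := by
      intro z hz hc a b hca hab
      exact hsd a b ((hca.mono (R_mono hz.le)).trans hc) (R_mono hz.le _ _ hab)
    obtain ⟨F1, T1⟩ := ih x hfx (hbz x hx hxf) sd (hsz x hx hxf)
    obtain ⟨F2, T2⟩ := ih y hfy (hbz y hy hyf) sd (hsz y hy hyf)
    have hsdxy : sd x ≠ sd y := proper2_odd hsd hxf hxy
    -- neighbours inside the two components
    have hnb : ∀ z, z < f → Founder H j z → ∃ z1, (R H (f - 1)).Adj z z1 := by
      intro z hz hfz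
      obtain ⟨a, b, ha, hb', _, _, hc1, hc2⟩ := hfz.1
      obtain ⟨n, hn⟩ := hc1
      rcases n with _ | n
      · have := hn.zero_inv; omega
      · obtain ⟨d, _, hd⟩ := hn.succ_inv
        exact ⟨d, R_mono (by omega) _ _ hd.symm⟩
    obtain ⟨x1, hx1⟩ := hnb x hx hfx
    obtain ⟨y1, hy1⟩ := hnb y hy hfy
    have comp1 := complete_side hT hP hb hx hy hxf hyf hsep hy1
    have comp2 := complete_side hT hP hb hy hx hyf hxf (fun h => hsep h.symm) hx1
    have c1 : ∀ r, r.length ≤ j → Conn (R H (f - 1)) x (F1 r) := fun r hr =>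
      ((T1.conn r hr).mono (R_mono (by omega))).symm
    have c2 : ∀ r, r.length ≤ j → Conn (R H (f - 1)) y (F2 r) := fun r hr =>
      ((T2.conn r hr).mono (R_mono (by omega))).symm
    have l1 : ∀ r, r.length ≤ j → F1 r ≤ f - 1 := fun r hr => by
      have := T1.le r hr; omega
    have l2 : ∀ r, r.length ≤ j → F2 r ≤ f - 1 := fun r hr => by
      have := T2.le r hr; omega
    set F : List Bool → ℕ := fun s => if s = [] then f else
      if s.getLast? = some (sd x) then F1 s.dropLast else F2 s.dropLast with hF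
    have hF0 : F [] = f := by simp [hF]
    have hFx : ∀ r, F (r ++ [sd x]) = F1 r := by
      intro r
      simp [hF]
    have hFy : ∀ r, F (r ++ [sd y]) = F2 r := by
      intro r
      have : ¬ (sd y = sd x) := fun h => hsdxy h.symm
      simp [hF, this]
    have hcase : ∀ b : Bool, b = sd x ∨ b = sd y := by
      intro b
      cases b <;> cases h1 : sd x <;> cases h2 : sd y <;> simp_all
    -- case analysis on words
    have hword : ∀ s : List Bool, s = [] ∨ (∃ r, s = r ++ [sd x]) ∨ (∃ r, s = r ++ [sd y]) := by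
      intro s
      rcases List.eq_nil_or_concat s with h | ⟨r, b, h⟩
      · exact Or.inl h
      · right
        rcases hcase b with hb1 | hb1
        · left; exact ⟨r, by rw [h, hb1]; simp⟩
        · right; exact ⟨r, by rw [h, hb1]; simp⟩
    have mono1 : ∀ a b, Conn (R H (f - 1)) a b → Conn (R H f) a b := fun a b h =>
      h.mono (R_mono (by omega))
    have hdisj : ∀ r r', r.length ≤ j → r'.length ≤ j → F1 r ≠ F2 r' := by
      intro r r' hr hr' h
      have := c1 r hr
      rw [h] at this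
      exact hsep (this.trans (c2 r' hr').symm)
    have hnadj : ∀ r r', r.length ≤ j → r'.length ≤ j → ¬ H.Adj (F1 r) (F2 r') := by
      intro r r' hr hr' h
      have h1 : (R H (f - 1)).Adj (F1 r) (F2 r') := ⟨h, l1 r hr, l2 r' hr'⟩
      exact hsep (((c1 r hr).trans (Conn.of_adj h1)).trans (c2 r' hr').symm)
    -- adjacency with f
    have hadjf : ∀ u, u ≤ f - 1 → Conn (R H f) u f → (OddC (R H f) u f → H.Adj u f) →
        (H.Adj u f ↔ sd u ≠ sd f) := by
      intro u hu hc hcomp
      constructor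
      · intro h
        exact hsd u f hc ⟨h, by omega, le_rfl⟩
      · intro h
        rcases hc.odd_or_even with h1 | h1
        · exact hcomp h1
        · exact absurd (proper2_even hsd hc h1) h
    have hadj1 : ∀ r, r.length ≤ j → (H.Adj (F1 r) f ↔ sd (F1 r) ≠ sd f) := fun r hr =>
      hadjf _ (l1 r hr) ((mono1 _ _ (c1 r hr)).symm.trans hxf) (comp1 _ (c1 r hr))
    have hadj2 : ∀ r, r.length ≤ j → (H.Adj (F2 r) f ↔ sd (F2 r) ≠ sd f) := fun r hr =>
      hadjf _ (l2 r hr) ((mono1 _ _ (c2 r hr)).symm.trans hyf) (comp2 _ (c2 r hr))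
    have hlen : ∀ (r : List Bool) (b : Bool), (r ++ [b]).length ≤ j + 1 → r.length ≤ j := by
      intro r b h
      rw [List.length_append, List.length_singleton] at h
      omega
    refine ⟨F, hF0, ?_, ?_, ?_, ?_, ?_⟩
    · intro s hs
      rcases hword s with rfl | ⟨r, rfl⟩ | ⟨r, rfl⟩
      · rw [hF0]; exact Conn.refl f
      · rw [hFx]; exact (mono1 _ _ (c1 r (hlen _ _ hs))).symm.trans hxf
      · rw [hFy]; exact (mono1 _ _ (c2 r (hlen _ _ hs))).symm.trans hyf
    · intro s hs
      rcases hword s with rfl | ⟨r, rfl⟩ | ⟨r, rfl⟩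
      · rw [hF0]
      · rw [hFx]; have := l1 r (hlen _ _ hs); omega
      · rw [hFy]; have := l2 r (hlen _ _ hs); omega
    · intro s hs0 hs
      rcases hword s with rfl | ⟨r, rfl⟩ | ⟨r, rfl⟩
      · exact absurd rfl hs0
      · rw [hFx]
        rcases r with _ | ⟨b, r⟩
        · rw [T1.root]; rfl
        · rw [T1.side _ (by simp) (hlen _ _ hs)]; rfl
      · rw [hFy]
        rcases r with _ | ⟨b, r⟩
        · rw [T2.root]; rfl
        · rw [T2.side _ (by simp) (hlen _ _ hs)]; rfl
    · intro s s' hs hs' heq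
      rcases hword s with rfl | ⟨r, rfl⟩ | ⟨r, rfl⟩ <;> rcases hword s' with rfl | ⟨r', rfl⟩ | ⟨r', rfl⟩
      · rfl
      · rw [hF0, hFx] at heq
        have := l1 r' (hlen _ _ hs'); omega
      · rw [hF0, hFy] at heq
        have := l2 r' (hlen _ _ hs'); omega
      · rw [hF0, hFx] at heq
        have := l1 r (hlen _ _ hs); omega
      · rw [hFx, hFx] at heq
        rw [T1.inj _ _ (hlen _ _ hs) (hlen _ _ hs') heq]
      · rw [hFx, hFy] at heq
        exact absurd heq (hdisj _ _ (hlen _ _ hs) (hlen _ _ hs'))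
      · rw [hF0, hFy] at heq
        have := l2 r (hlen _ _ hs); omega
      · rw [hFx, hFy] at heq
        exact absurd heq.symm (hdisj _ _ (hlen _ _ hs') (hlen _ _ hs))
      · rw [hFy, hFy] at heq
        rw [T2.inj _ _ (hlen _ _ hs) (hlen _ _ hs') heq]
    · have hnil : ∀ s : List Bool, Cmp [] s := fun s => Or.inl (List.nil_suffix)
      have hnil' : ∀ s : List Bool, Cmp s [] := fun s => Or.inr (List.nil_suffix)
      intro s s' hs hs'
      rcases hword s with rfl | ⟨r, rfl⟩ | ⟨r, rfl⟩ <;> rcases hword s' with rfl | ⟨r', rfl⟩ | ⟨r', rfl⟩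
      · simp
      · rw [hF0, hFx, H.adj_comm, hadj1 _ (hlen _ _ hs')]
        exact ⟨fun h => ⟨hnil _, h.symm⟩, fun h => h.2.symm⟩
      · rw [hF0, hFy, H.adj_comm, hadj2 _ (hlen _ _ hs')]
        exact ⟨fun h => ⟨hnil _, h.symm⟩, fun h => h.2.symm⟩
      · rw [hF0, hFx, hadj1 _ (hlen _ _ hs)]
        exact ⟨fun h => ⟨hnil' _, h⟩, fun h => h.2⟩
      · rw [hFx, hFx, cmp_concat]
        exact T1.adj _ _ (hlen _ _ hs) (hlen _ _ hs')
      · rw [hFx, hFy]
        constructor
        · intro h; exact absurd h (hnadj _ _ (hlen _ _ hs) (hlen _ _ hs'))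
        · rintro ⟨h, _⟩; exact absurd h (cmp_concat_ne hsdxy)
      · rw [hF0, hFy, hadj2 _ (hlen _ _ hs)]
        exact ⟨fun h => ⟨hnil' _, h⟩, fun h => h.2⟩
      · rw [hFx, hFy]
        constructor
        · intro h; exact absurd h.symm (hnadj _ _ (hlen _ _ hs') (hlen _ _ hs))
        · rintro ⟨h, _⟩; exact absurd h (cmp_concat_ne (Ne.symm hsdxy))
      · rw [hFy, hFy, cmp_concat]
        exact T2.adj _ _ (hlen _ _ hs) (hlen _ _ hs')

/-- If the index `j + 1` (or more) is used on a vertex `t`, then the depth-`j` tree graph is present. -/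
theorem tree_of_level (hT : TriFree H) (hP : P6Free H) {t j : ℕ} (hb : ¬ OddC (R H t) t t)
    (hj : j < lv H t) : ∃ F : List Bool → ℕ, (∀ s, s.length ≤ j → F s ≤ t) ∧
      (∀ s s', s.length ≤ j → s'.length ≤ j → F s = F s' → s = s') ∧
      (∀ s s', s ≠ [] → s' ≠ [] → s.length ≤ j → s'.length ≤ j →
        (H.Adj (F s) (F s') ↔ Cmp s s' ∧ s.headD false ≠ s'.headD false)) := by
  classical
  obtain ⟨f, hft, hcf, hf⟩ := exists_founder (mx_of_lt hj)
  have hbf : ¬ OddC (R H f) f f := by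
    intro ho
    apply hb
    have h1 : OddC (R H t) f f := ho.mono (R_mono hft)
    rcases hcf.odd_or_even with h2 | h2
    · exact (h2.symm.trans_odd h1).trans_odd h2
    · exact (h2.symm.trans_odd h1).trans_even h2
  have hsd : Proper2 H f (fun a => decide (OddC (R H f) a f)) := by
    intro a b hc hab heq
    have h1 : OddC (R H f) a f ↔ OddC (R H f) b f := by simpa using heq
    have hbc : Conn (R H f) b f := (Conn.of_adj hab.symm).trans hc
    by_cases h2 : OddC (R H f) a f
    · have h3 := h1.1 h2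
      exact not_even_odd hbf hbc h3 ((OddC.of_adj hab.symm).trans_odd h2)
    · rcases hc.odd_or_even with h3 | h3
      · exact h2 h3
      · exact h2 (h1.2 ((OddC.of_adj hab.symm).trans_even h3))
  obtain ⟨F, TF⟩ := exists_tree hT hP j f hf hbf _ hsd
  refine ⟨F, fun s hs => (TF.le s hs).trans hft, TF.inj, ?_⟩
  intro s s' h0 h0' hs hs'
  rw [TF.adj s s' hs hs', TF.side s h0 hs, TF.side s' h0' hs']

end Pool.Agent.Lib.MP_ada285_co
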