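import Mathlib
import Pool.Agent.Lib.MP_ada285_co.Tree

set_option autoImplicit false

namespace Pool.Agent.Lib.MP_ada285_co

/-- positions: words of pairs (index, side), the last chosen step first -/
abbrev U := List (ℕ × Bool)

/-- the side of a position -/
def side : U → Bool
  | [] => false
  | x :: _ => x.2

/-- admissible positions -/
def Dom (q : ℕ) (s : U) : Prop := s ≠ [] ∧ s.length ≤ q + 1 ∧ ∀ x ∈ s, x.1 ≤ q

/-- flipping a step -/
def fb : ℕ × Bool → ℕ × Bool := fun x => (x.1, !x.2)

lemma fb_inj : Function.Injective fb := by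
  rintro ⟨a, b⟩ ⟨c, d⟩ h
  simp only [fb, Prod.mk.injEq] at h
  obtain ⟨rfl, h⟩ := h
  cases b <;> cases d <;> simp_all

/-- flip all steps above `P` -/
def flip (P s : U) : U := (s.take (s.length - P.length)).map fb ++ P

lemma flip_append (P r : U) : flip P (r ++ P) = r.map fb ++ P := by
  unfold flip
  rw [List.length_append, Nat.add_sub_cancel, List.take_left']
  rfl

lemma cmp_append {β : Type} (r r' P : List β) : Cmp (r ++ P) (r' ++ P) ↔ Cmp r r' := by
  have key : ∀ r r' : List β, (r ++ P) <:+ (r' ++ P) ↔ r <:+ r' := by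
    intro r r'
    constructor
    · rintro ⟨t, ht⟩
      refine ⟨t, ?_⟩
      rw [← List.append_assoc] at ht
      exact List.append_cancel_right ht
    · rintro ⟨t, ht⟩
      exact ⟨t, by rw [← List.append_assoc, ht]⟩
  unfold Cmp
  rw [key, key]

lemma suffix_map {β γ : Type} (g : β → γ) (hg : Function.Injective g) (r r' : List β) :
    (r.map g) <:+ (r'.map g) ↔ r <:+ r' := by
  constructor
  · rintro ⟨t, ht⟩
    have h1 : t.length + r.length = r'.length := by
      have := congrArg List.length ht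
      simpa using this
    refine ⟨r'.take t.length, ?_⟩
    have h2 : r'.map g = (r'.take t.length).map g ++ (r'.drop t.length).map g := by
      rw [← List.map_append, List.take_append_drop]
    rw [h2] at ht
    have h3 := List.append_inj ht (by simp; omega)
    have h4 : r = r'.drop t.length := (List.map_injective_iff.2 hg) h3.2
    conv_lhs => rw [h4]
    exact List.take_append_drop _ _
  · rintro ⟨t, ht⟩
    exact ⟨t.map g, by rw [← List.map_append, ht]⟩

lemma cmp_map {β γ : Type} (g : β → γ) (hg : Function.Injective g) (r r' : List β) :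
    Cmp (r.map g) (r'.map g) ↔ Cmp r r' := by
  unfold Cmp
  rw [suffix_map g hg, suffix_map g hg]

lemma Cmp.symm {β : Type} {s s' : List β} (h : Cmp s s') : Cmp s' s := h.elim Or.inr Or.inl

lemma Cmp.refl {β : Type} (s : List β) : Cmp s s := Or.inl (List.suffix_refl s)

/-- two suffixes of the same word are comparable -/
lemma cmp_of_suffix {β : Type} {a b s : List β} (ha : a <:+ s) (hb : b <:+ s) : Cmp a b :=
  List.suffix_or_suffix_of_suffix ha hb

lemma eq_of_cmp_length {β : Type} {a b : List β} (h : Cmp a b) (hl : a.length = b.length) : a = b := by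
  rcases h with h | h
  · exact h.eq_of_length hl
  · exact (h.eq_of_length hl.symm).symm

lemma side_cons (x : ℕ × Bool) (s : U) : side (x :: s) = x.2 := rfl

lemma side_map_append (r P : U) (hr : r ≠ []) : side (r.map fb ++ P) = !(side (r ++ P)) := by
  cases r with
  | nil => exact absurd rfl hr
  | cons x r => rfl

section
variable {q : ℕ} {rn : (ℕ → U) → ℕ → ℕ}

/-- the rules of the game -/
structure Game (q : ℕ) (rn : (ℕ → U) → ℕ → ℕ) : Prop where
  inv : ∀ p p' n, (∀ i, i < n → Dom q (p i)) → (∀ i, i < n → Dom q (p' i)) →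
    (∀ a b, a < n → b < n → ((Cmp (p a) (p b) ∧ side (p a) ≠ side (p b)) ↔
      (Cmp (p' a) (p' b) ∧ side (p' a) ≠ side (p' b)))) → ∀ i, i < n → rn p i = rn p' i
  prop : ∀ p n, (∀ i, i < n → Dom q (p i)) → (∀ a b, a < n → b < n → p a = p b → a = b) →
    ∀ a b, a < n → b < n → Cmp (p a) (p b) → side (p a) ≠ side (p b) → rn p a ≠ rn p b
  card : ∀ p n, (∀ i, i < n → Dom q (p i)) → (∀ a b, a < n → b < n → p a = p b → a = b) →
    ((Finset.range n).image (rn p)).card ≤ q

lemma Game.loc (g : Game q rn) {p p' : ℕ → U} {n : ℕ} (h : ∀ i, i < n → Dom q (p i))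
    (hp : ∀ i, i < n → p' i = p i) : ∀ i, i < n → rn p' i = rn p i := by
  apply g.inv p' p n
  · intro i hi; rw [hp i hi]; exact h i hi
  · exact h
  · intro a b ha hb
    rw [hp a ha, hp b hb]

/-- the adversary's claim at level `j` -/
def Claim (q : ℕ) (rn : (ℕ → U) → ℕ → ℕ) (j : ℕ) : Prop :=
  ∀ P : U, Dom q P → P.length + j ≤ q + 1 →
    ∀ (n : ℕ) (p : ℕ → U), (∀ i, i < n → Dom q (p i)) →
      (∀ a b, a < n → b < n → p a = p b → a = b) →
      (∀ i, i < n → ¬ Cmp (p i) P) →
      ∃ (n' : ℕ) (p' : ℕ → U), n ≤ n' ∧ (∀ i, i < n → p' i = p i) ∧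
        (∀ i, n ≤ i → i < n' → P <:+ p' i ∧ p' i ≠ P ∧ Dom q (p' i)) ∧
        (∀ a b, a < n' → b < n' → p' a = p' b → a = b) ∧
        ∃ S : Finset ℕ, j ≤ S.card ∧ ∀ c ∈ S, ∀ b, ∃ i, n ≤ i ∧ i < n' ∧ side (p' i) = b ∧ rn p' i = c

lemma claim_zero : Claim q rn 0 := by
  intro P _ _ n p hD hI _
  refine ⟨n, p, le_rfl, fun _ _ => rfl, fun i h1 h2 => by omega, hI, ∅, by simp, ?_⟩
  intro c hc
  simp at hc

/-- the state after `m` pieces -/
def Pieces (q : ℕ) (rn : (ℕ → U) → ℕ → ℕ) (j : ℕ) (P : U) (n : ℕ) (p : ℕ → U) (m : ℕ) : Prop :=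
  ∃ (n' : ℕ) (p' : ℕ → U), n ≤ n' ∧ (∀ i, i < n → p' i = p i) ∧
    (∀ i, n ≤ i → i < n' → Dom q (p' i) ∧ ∃ l, l < m ∧ ((l, false) :: P) <:+ p' i) ∧
    (∀ a b, a < n' → b < n' → p' a = p' b → a = b) ∧
    ∀ l, l < m → ∃ i0, n ≤ i0 ∧ i0 < n' ∧ p' i0 = (l, false) :: P ∧
      ∃ S : Finset ℕ, j ≤ S.card ∧ ∀ c ∈ S, ∀ b, ∃ i, n ≤ i ∧ i < n' ∧ ((l, false) :: P) <:+ p' i ∧
        side (p' i) = b ∧ rn p' i = c

lemma cons_cmp_false {P : U} {x y : ℕ × Bool} {s : U} (hne : x ≠ y) (h1 : (x :: P) <:+ s)
    (h2 : Cmp s (y :: P)) : False := by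
  have h3 : Cmp (x :: P) (y :: P) := by
    rcases h2 with h2 | h2
    · exact Or.inl (h1.trans h2)
    · exact cmp_of_suffix h1 h2
  have := eq_of_cmp_length h3 rfl
  simp only [List.cons.injEq, and_true] at this
  exact hne this

lemma not_cmp_cons {P s : U} {x : ℕ × Bool} (h : ¬ Cmp s P) : ¬ Cmp s (x :: P) := by
  rintro (h1 | h1)
  · rcases List.suffix_cons_iff.1 h1 with h2 | h2
    · apply h
      right
      rw [h2]
      exact List.suffix_cons x P
    · exact h (Or.inl h2)
  · exact h (Or.inr ((List.suffix_cons x P).trans h1))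

lemma pieces_all (g : Game q rn) {j : ℕ} (hj : Claim q rn j) {P : U} (hP : Dom q P)
    (hlen : P.length + (j + 1) ≤ q + 1) {n : ℕ} {p : ℕ → U} (hD : ∀ i, i < n → Dom q (p i))
    (hI : ∀ a b, a < n → b < n → p a = p b → a = b) (hC : ∀ i, i < n → ¬ Cmp (p i) P) :
    ∀ m, m ≤ q + 1 → Pieces q rn j P n p m := by
  intro m
  induction m with
  | zero =>
    intro _
    exact ⟨n, p, le_rfl, fun _ _ => rfl, fun i h1 h2 => by omega, hI, fun l hl => by omega⟩
  | succ m ih =>
    intro hm
    obtain ⟨n1, p1, hn1, hp1, hd1, hi1, hl1⟩ := ih (by omega)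
    have hD1 : ∀ i, i < n1 → Dom q (p1 i) := by
      intro i hi
      rcases Nat.lt_or_ge i n with h | h
      · rw [hp1 i h]; exact hD i h
      · exact (hd1 i h hi).1
    have hP' : Dom q ((m, false) :: P) := by
      refine ⟨by simp, by rw [List.length_cons]; omega, ?_⟩
      intro x hx
      rw [List.mem_cons] at hx
      rcases hx with rfl | hx
      · simp; omega
      · exact hP.2.2 x hx
    have hC1 : ∀ i, i < n1 → ¬ Cmp (p1 i) ((m, false) :: P) := by
      intro i hi hc
      rcases Nat.lt_or_ge i n with h | h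
      · rw [hp1 i h] at hc
        exact not_cmp_cons (hC i h) hc
      · obtain ⟨_, l, hl, hs⟩ := hd1 i h hi
        exact cons_cmp_false (by simp; omega) hs hc
    obtain ⟨n2, p2, hn2, hp2, hd2, hi2, S2, hS2, hS2'⟩ :=
      hj ((m, false) :: P) hP' (by rw [List.length_cons]; omega) n1 p1 hD1 hi1 hC1
    have hD2 : ∀ i, i < n2 → Dom q (p2 i) := by
      intro i hi
      rcases Nat.lt_or_ge i n1 with h | h
      · rw [hp2 i h]; exact hD1 i h
      · exact (hd2 i h hi).2.2
    set p3 : ℕ → U := Function.update p2 n2 ((m, false) :: P) with hp3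
    have hp3' : ∀ i, i < n2 → p3 i = p2 i := by
      intro i hi
      rw [hp3, Function.update_of_ne (by omega)]
    have hp3n : p3 n2 = (m, false) :: P := by rw [hp3, Function.update_self]
    have hnot : ∀ i, i < n2 → p2 i ≠ (m, false) :: P := by
      intro i hi h
      rcases Nat.lt_or_ge i n1 with h1 | h1
      · rw [hp2 i h1] at h
        exact hC1 i h1 (by rw [h]; exact Cmp.refl _)
      · exact (hd2 i h1 hi).2.1 h
    have hrn3 : ∀ i, i < n2 → rn p3 i = rn p2 i := g.loc hD2 hp3'
    have hrn1 : ∀ i, i < n1 → rn p3 i = rn p1 i := by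
      intro i hi
      rw [hrn3 i (by omega)]
      exact g.loc hD1 hp2 i hi
    have hp31 : ∀ i, i < n1 → p3 i = p1 i := by
      intro i hi
      rw [hp3' i (by omega), hp2 i hi]
    refine ⟨n2 + 1, p3, by omega, ?_, ?_, ?_, ?_⟩
    · intro i hi
      rw [hp31 i (by omega), hp1 i hi]
    · intro i h1 h2
      rcases Nat.lt_or_ge i n1 with h3 | h3
      · rw [hp31 i h3]
        obtain ⟨h4, l, hl, h5⟩ := hd1 i h1 h3
        exact ⟨h4, l, by omega, h5⟩
      · rcases Nat.lt_or_ge i n2 with h4 | h4
        · rw [hp3' i h4]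
          obtain ⟨h5, h6, h7⟩ := hd2 i h3 h4
          exact ⟨h7, m, by omega, h5⟩
        · have : i = n2 := by omega
          rw [this, hp3n]
          exact ⟨hP', m, by omega, List.suffix_refl _⟩
    · intro a b ha hb hab
      rcases Nat.lt_or_ge a n2 with h1 | h1 <;> rcases Nat.lt_or_ge b n2 with h2 | h2
      · rw [hp3' a h1, hp3' b h2] at hab
        exact hi2 a b h1 h2 hab
      · have h3 : b = n2 := by omega
        rw [hp3' a h1, h3, hp3n] at hab
        exact absurd hab (hnot a h1)
      · have h3 : a = n2 := by omega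
        rw [hp3' b h2, h3, hp3n] at hab
        exact absurd hab.symm (hnot b h2)
      · omega
    · intro l hl
      rcases Nat.lt_or_ge l m with h1 | h1
      · obtain ⟨i0, h2, h3, h4, S, hS, hS'⟩ := hl1 l h1
        refine ⟨i0, h2, by omega, by rw [hp31 i0 h3, h4], S, hS, ?_⟩
        intro c hc b
        obtain ⟨i, h5, h6, h7, h8, h9⟩ := hS' c hc b
        exact ⟨i, h5, by omega, by rw [hp31 i h6]; exact h7, by rw [hp31 i h6]; exact h8,
          by rw [hrn1 i h6]; exact h9⟩
      · have h2 : l = m := by omega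
        subst h2
        refine ⟨n2, by omega, by omega, hp3n, S2, hS2, ?_⟩
        intro c hc b
        obtain ⟨i, h5, h6, h7, h8⟩ := hS2' c hc b
        obtain ⟨h9, _, _⟩ := hd2 i h5 h6
        exact ⟨i, by omega, by omega, by rw [hp3' i h6]; exact h9, by rw [hp3' i h6]; exact h7,
          by rw [hrn3 i h6]; exact h8⟩

lemma claim_succ (g : Game q rn) {j : ℕ} (hj : Claim q rn j) : Claim q rn (j + 1) := by
  classical
  intro P hP hlen n p hD hI hC
  obtain ⟨n', p', hn', hp', hd', hi', hl'⟩ := pieces_all g hj hP hlen hD hI hC (q + 1) le_rfl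
  have hD' : ∀ i, i < n' → Dom q (p' i) := by
    intro i hi
    rcases Nat.lt_or_ge i n with h | h
    · rw [hp' i h]; exact hD i h
    · exact (hd' i h hi).1
  -- pigeonhole
  choose! i0 hi0a hi0b hi0c S hS1 hS2 using hl'
  have hcard := g.card p' n' hD' hi'
  have hpig : ∃ l ∈ Finset.range (q + 1), ∃ l' ∈ Finset.range (q + 1), l ≠ l' ∧
      rn p' (i0 l) = rn p' (i0 l') := by
    apply Finset.exists_ne_map_eq_of_card_lt_of_maps_to (t := (Finset.range n').image (rn p'))
    · rw [Finset.card_range]; omega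
    · intro l hl
      rw [Finset.coe_range, Set.mem_Iio] at hl
      rw [Finset.coe_image]
      exact ⟨i0 l, by rw [Finset.coe_range, Set.mem_Iio]; exact hi0b l hl, rfl⟩
  obtain ⟨l, hl, l', hl', hne, hcol⟩ := hpig
  rw [Finset.mem_range] at hl hl'
  set P1 : U := (l', false) :: P with hP1
  set φ : U → U := fun s => if P1 <:+ s then flip P s else s with hφ
  -- description of φ on the subtree of P1
  have hsub : ∀ s, P1 <:+ s → ∃ r, r ≠ [] ∧ s = r ++ P ∧ φ s = r.map fb ++ P ∧
      ((l', true) :: P) <:+ φ s := by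
    intro s hs
    obtain ⟨t, ht⟩ := hs
    refine ⟨t ++ [(l', false)], by simp, by rw [← ht, hP1]; simp, ?_, ?_⟩
    · rw [hφ]
      simp only
      rw [if_pos ⟨t, ht⟩, ← ht, hP1]
      rw [show t ++ (l', false) :: P = (t ++ [(l', false)]) ++ P by simp, flip_append]
    · rw [hφ]
      simp only
      rw [if_pos ⟨t, ht⟩, ← ht, hP1]
      rw [show t ++ (l', false) :: P = (t ++ [(l', false)]) ++ P by simp, flip_append]
      refine ⟨t.map fb, ?_⟩
      simp [fb]
  have hout : ∀ s, ¬ P1 <:+ s → φ s = s := by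
    intro s hs
    rw [hφ]; simp only; rw [if_neg hs]
  have hPs : ∀ s, P1 <:+ s → P <:+ φ s := by
    intro s hs
    obtain ⟨r, _, _, h, _⟩ := hsub s hs
    rw [h]; exact List.suffix_append _ _
  -- outside nodes are incomparable with P1-subtree and its flip
  have hincomp : ∀ b, b < n' → ¬ P1 <:+ p' b → ∀ s, P <:+ s →
      (P1 <:+ s ∨ ((l', true) :: P) <:+ s) → ¬ Cmp s (p' b) := by
    intro b hb hnb s hPs' hs hc
    rcases Nat.lt_or_ge b n with h | h
    · rw [hp' b h] at hc
      apply hC b h
      rcases hc with hc | hc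
      · exact Or.inr (hPs'.trans hc)
      · exact cmp_of_suffix hc hPs'
    · obtain ⟨_, l'', hl'', hs''⟩ := hd' b h hb
      have hne'' : l'' ≠ l' := by
        rintro rfl
        exact hnb hs''
      have hc' : Cmp s ((l'', false) :: P) := by
        rcases hc with hc | hc
        · exact cmp_of_suffix hc hs''
        · exact Or.inr (hs''.trans hc)
      rcases hs with hs | hs
      · exact cons_cmp_false (x := (l', false)) (y := (l'', false)) (by simp; exact fun h => hne'' h.symm) hs hc'
      · exact cons_cmp_false (x := (l', true)) (y := (l'', false)) (by simp) hs hc'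
  have hfix : ∀ i, i < n → φ (p' i) = p i := by
    intro i hi
    rw [hp' i hi]
    apply hout
    intro h
    exact hC i hi (Or.inr ((List.suffix_cons _ _).trans h))
  set p'' : ℕ → U := fun i => φ (p' i) with hp''
  have hadj : ∀ a b, a < n' → b < n' → ((Cmp (p' a) (p' b) ∧ side (p' a) ≠ side (p' b)) ↔
      (Cmp (p'' a) (p'' b) ∧ side (p'' a) ≠ side (p'' b))) := by
    intro a b ha hb
    simp only [hp'']
    by_cases h1 : P1 <:+ p' a <;> by_cases h2 : P1 <:+ p' b
    · obtain ⟨r, hr, hr1, hr2, _⟩ := hsub _ h1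
      obtain ⟨r', hr', hr1', hr2', _⟩ := hsub _ h2
      rw [hr2, hr2', cmp_append, cmp_map fb fb_inj, side_map_append _ _ hr, side_map_append _ _ hr',
        hr1, hr1', cmp_append]
      constructor
      · rintro ⟨h3, h4⟩; refine ⟨h3, ?_⟩; intro h5; apply h4; simpa using h5
      · rintro ⟨h3, h4⟩; refine ⟨h3, ?_⟩; intro h5; apply h4; rw [h5]
    · rw [hout _ h2]
      obtain ⟨r, hr, hr1, hr2, hr3⟩ := hsub _ h1
      constructor
      · rintro ⟨h3, _⟩
        exact absurd h3 (hincomp b hb h2 _ (by rw [hr1]; exact List.suffix_append _ _) (Or.inl h1))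
      · rintro ⟨h3, _⟩
        exact absurd h3 (hincomp b hb h2 _ (hPs _ h1) (Or.inr hr3))
    · rw [hout _ h1]
      obtain ⟨r, hr, hr1, hr2, hr3⟩ := hsub _ h2
      constructor
      · rintro ⟨h3, _⟩
        exact absurd h3.symm (hincomp a ha h1 _ (by rw [hr1]; exact List.suffix_append _ _) (Or.inl h2))
      · rintro ⟨h3, _⟩
        exact absurd h3.symm (hincomp a ha h1 _ (hPs _ h2) (Or.inr hr3))
    · rw [hout _ h1, hout _ h2]
  have hD'' : ∀ i, i < n' → Dom q (p'' i) := by
    intro i hi
    simp only [hp'']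
    by_cases h1 : P1 <:+ p' i
    · obtain ⟨r, hr, hr1, hr2, _⟩ := hsub _ h1
      have h2 := hD' i hi
      rw [hr1] at h2
      rw [hr2]
      refine ⟨?_, ?_, ?_⟩
      · intro h; rw [List.append_eq_nil_iff, List.map_eq_nil_iff] at h; exact hr h.1
      · rw [List.length_append, List.length_map, ← List.length_append]; exact h2.2.1
      · intro x hx
        rw [List.mem_append, List.mem_map] at hx
        rcases hx with ⟨y, hy, rfl⟩ | hx
        · exact h2.2.2 y (List.mem_append_left _ hy)
        · exact h2.2.2 x (List.mem_append_right _ hx)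
    · rw [hout _ h1]; exact hD' i hi
  have hrn : ∀ i, i < n' → rn p' i = rn p'' i := g.inv p' p'' n' hD' hD'' hadj
  have hi'' : ∀ a b, a < n' → b < n' → p'' a = p'' b → a = b := by
    intro a b ha hb hab
    simp only [hp''] at hab
    by_cases h1 : P1 <:+ p' a <;> by_cases h2 : P1 <:+ p' b
    · obtain ⟨r, hr, hr1, hr2, _⟩ := hsub _ h1
      obtain ⟨r', hr', hr1', hr2', _⟩ := hsub _ h2
      rw [hr2, hr2'] at hab
      have h3 := List.append_cancel_right hab
      have h4 := (List.map_injective_iff.2 fb_inj) h3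
      apply hi' a b ha hb
      rw [hr1, hr1', h4]
    · obtain ⟨r, hr, hr1, hr2, hr3⟩ := hsub _ h1
      exfalso
      apply hincomp b hb h2 _ (hPs _ h1) (Or.inr hr3)
      rw [hab, hout _ h2]
      exact Cmp.refl _
    · obtain ⟨r, hr, hr1, hr2, hr3⟩ := hsub _ h2
      exfalso
      apply hincomp a ha h1 _ (hPs _ h2) (Or.inr hr3)
      rw [← hab, hout _ h1]
      exact Cmp.refl _
    · rw [hout _ h1, hout _ h2] at hab
      exact hi' a b ha hb hab
  -- the colour of the two roots is not in S l
  have hcnot : rn p' (i0 l) ∉ S l := by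
    intro hc
    obtain ⟨i, h1, h2, h3, h4, h5⟩ := hS2 l hl _ hc true
    have h6 : Cmp (p' (i0 l)) (p' i) := by
      rw [hi0c l hl]; exact Or.inl h3
    refine g.prop p' n' hD' hi' (i0 l) i (hi0b l hl) h2 h6 ?_ h5.symm
    rw [hi0c l hl, h4, side_cons]
    simp
  have hPl : ∀ s, ((l, false) :: P) <:+ s → ¬ P1 <:+ s := by
    intro s hs hs1
    refine cons_cmp_false (x := (l, false)) (y := (l', false)) (by simp; exact hne) hs (Or.inr hs1)
  refine ⟨n', p'', hn', hfix, ?_, hi'', insert (rn p' (i0 l)) (S l), ?_, ?_⟩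
  · intro i h1 h2
    obtain ⟨h3, l'', hl'', h4⟩ := hd' i h1 h2
    refine ⟨?_, ?_, hD'' i h2⟩
    · simp only [hp'']
      by_cases h5 : P1 <:+ p' i
      · exact hPs _ h5
      · rw [hout _ h5]; exact (List.suffix_cons _ _).trans h4
    · simp only [hp'']
      intro h6
      by_cases h5 : P1 <:+ p' i
      · obtain ⟨r, hr, hr1, hr2, _⟩ := hsub _ h5
        rw [hr2] at h6
        have := congrArg List.length h6
        rw [List.length_append, List.length_map] at this
        have h7 : 0 < r.length := List.length_pos_iff.2 hr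
        omega
      · rw [hout _ h5] at h6
        rw [h6] at h4
        have := h4.length_le
        rw [List.length_cons] at this
        omega
  · rw [Finset.card_insert_of_notMem hcnot]
    have := hS1 l hl
    omega
  · intro c hc b
    rw [Finset.mem_insert] at hc
    rcases hc with rfl | hc
    · cases b with
      | false =>
        refine ⟨i0 l, hi0a l hl, hi0b l hl, ?_, (hrn _ (hi0b l hl)).symm⟩
        simp only [hp'']
        rw [hi0c l hl, hout _ (hPl _ (List.suffix_refl _)), side_cons]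
      | true =>
        refine ⟨i0 l', hi0a l' hl', hi0b l' hl', ?_, ?_⟩
        · simp only [hp'']
          rw [hi0c l' hl']
          obtain ⟨r, hr, hr1, hr2, hr3⟩ := hsub P1 (List.suffix_refl _)
          have h8 : r = [(l', false)] := by
            rw [hP1, show (l', false) :: P = [(l', false)] ++ P from rfl] at hr1
            exact (List.append_cancel_right hr1).symm
          rw [← hP1, hr2, h8]
          rfl
        · rw [← hrn _ (hi0b l' hl'), hcol]
    · obtain ⟨i, h1, h2, h3, h4, h5⟩ := hS2 l hl c hc b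
      refine ⟨i, h1, h2, ?_, ?_⟩
      · simp only [hp'']
        rw [hout _ (hPl _ h3)]; exact h4
      · rw [← hrn i h2]; exact h5

theorem no_game (g : Game q rn) : False := by
  classical
  have hall : ∀ j, Claim q rn j := by
    intro j
    induction j with
    | zero => exact claim_zero
    | succ j ih => exact claim_succ g ih
  have hP : Dom q [(0, false)] := ⟨by simp, by simp, by simp⟩
  obtain ⟨n', p', _, _, hd', hi', S, hS1, hS2⟩ := hall q [(0, false)] hP (by simp; omega) 0 (fun _ => [])
    (fun i hi => by omega) (fun a b ha => by omega) (fun i hi => by omega)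
  have hD' : ∀ i, i < n' → Dom q (p' i) := fun i hi => (hd' i (Nat.zero_le _) hi).2.2
  set p3 : ℕ → U := Function.update p' n' [(0, false)] with hp3
  have hp3' : ∀ i, i < n' → p3 i = p' i := by
    intro i hi
    rw [hp3, Function.update_of_ne (by omega)]
  have hp3n : p3 n' = [(0, false)] := by rw [hp3, Function.update_self]
  have hD3 : ∀ i, i < n' + 1 → Dom q (p3 i) := by
    intro i hi
    rcases Nat.lt_or_ge i n' with h | h
    · rw [hp3' i h]; exact hD' i h
    · have : i = n' := by omega
      rw [this, hp3n]; exact hP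
  have hI3 : ∀ a b, a < n' + 1 → b < n' + 1 → p3 a = p3 b → a = b := by
    intro a b ha hb hab
    rcases Nat.lt_or_ge a n' with h1 | h1 <;> rcases Nat.lt_or_ge b n' with h2 | h2
    · rw [hp3' a h1, hp3' b h2] at hab
      exact hi' a b h1 h2 hab
    · have h3 : b = n' := by omega
      rw [hp3' a h1, h3, hp3n] at hab
      exact absurd hab (hd' a (Nat.zero_le _) h1).2.1
    · have h3 : a = n' := by omega
      rw [hp3' b h2, h3, hp3n] at hab
      exact absurd hab.symm (hd' b (Nat.zero_le _) h2).2.1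
    · omega
  have hrn : ∀ i, i < n' → rn p3 i = rn p' i := g.loc hD' hp3'
  have hnot : rn p3 n' ∉ S := by
    intro hc
    obtain ⟨i, _, h2, h3, h4⟩ := hS2 _ hc true
    have h5 := (hd' i (Nat.zero_le _) h2).1
    refine g.prop p3 (n' + 1) hD3 hI3 n' i (by omega) (by omega) ?_ ?_ ?_
    · rw [hp3n, hp3' i h2]; exact Or.inl h5
    · rw [hp3n, hp3' i h2, h3, side_cons]; simp
    · rw [hrn i h2, h4]
  have hsub : insert (rn p3 n') S ⊆ (Finset.range (n' + 1)).image (rn p3) := by
    intro c hc
    rw [Finset.mem_insert] at hc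
    rw [Finset.mem_image]
    rcases hc with rfl | hc
    · exact ⟨n', by simp, rfl⟩
    · obtain ⟨i, _, h2, _, h4⟩ := hS2 c hc true
      exact ⟨i, by rw [Finset.mem_range]; omega, by rw [hrn i h2, h4]⟩
  have h1 := Finset.card_le_card hsub
  rw [Finset.card_insert_of_notMem hnot] at h1
  have h2 := g.card p3 (n' + 1) hD3 hI3
  omega

end

end Pool.Agent.Lib.MP_ada285_co
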