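import Mathlib

/-!
# On-line colouring of finite graphs: definitions
-/

set_option autoImplicit false

namespace Pool.Agent.Lib.MP_ada285_co

/-- A deterministic on-line colouring algorithm. When the vertex number `i` arrives (numbering starts
at `0`), the algorithm sees the graph induced by the vertices revealed so far, as a graph on
`Fin (i + 1)` labelled in order of arrival (the new vertex is the last one), and the colours already
given to the vertices `0, …, i - 1`; it answers with a colour for the new vertex. -/
def OnlineAlgorithm : Type := (i : ℕ) → SimpleGraph (Fin (i + 1)) → (Fin i → ℕ) → ℕ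

/-- `run A G π i` is the colour which `A` gives to the vertex `π i` of `G` when the vertices
`π 0, π 1, …` are revealed one at a time in this order. -/
def run (A : OnlineAlgorithm) {V : Type} (G : SimpleGraph V) {N : ℕ} (π : Fin N → V)
    (i : Fin N) : ℕ :=
  A i (G.comap fun j : Fin (i + 1) => π ⟨j, by omega⟩) (fun j : Fin i => run A G π ⟨j, by omega⟩)
termination_by i.val

/-- `A` is an on-line colouring algorithm for `G`: whatever the order `π` in which the vertices of `G`
are revealed, adjacent vertices get different colours. -/
def WorksOn (A : OnlineAlgorithm) {V : Type} [Fintype V] (G : SimpleGraph V) : Prop :=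
  ∀ π : Fin (Fintype.card V) ≃ V, ∀ i j, G.Adj (π i) (π j) → run A G π i ≠ run A G π j

/-- `χ_A(G, π)`: the number of colours which `A` uses on `G` under the order `π`. -/
def coloursUsed (A : OnlineAlgorithm) {V : Type} (G : SimpleGraph V) {N : ℕ} (π : Fin N → V) : ℕ :=
  (Finset.univ.image (run A G π)).card

/-- `χ_A(G)`: the maximum of `χ_A(G, π)` over all orders `π` of the vertices of `G`. -/
noncomputable def chiAlg (A : OnlineAlgorithm) {V : Type} [Fintype V] (G : SimpleGraph V) : ℕ :=
  ⨆ π : Fin (Fintype.card V) ≃ V, coloursUsed A G π

/-- `χ_OL(G)`: the minimum of `χ_A(G)` over all on-line colouring algorithms `A` for `G`. -/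
noncomputable def chiOL {V : Type} [Fintype V] (G : SimpleGraph V) : ℕ :=
  sInf {k | ∃ A : OnlineAlgorithm, WorksOn A G ∧ chiAlg A G = k}

end Pool.Agent.Lib.MP_ada285_co
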