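import Mathlib
import Pool.Agent.Lib.MP_ada285_co.Defs
import Pool.Agent.Lib.MP_ada285_co.Adversary

set_option autoImplicit false

namespace Pool.Agent.Lib.MP_ada285_co

/-- the run along an infinite sequence -/
def runN (A : OnlineAlgorithm) {V : Type} (G : SimpleGraph V) (p : ℕ → V) (i : ℕ) : ℕ :=
  A i (G.comap fun j : Fin (i + 1) => p j) (fun j : Fin i => runN A G p j)
termination_by i
decreasing_by exact j.isLt

lemma run_eq_runN (A : OnlineAlgorithm) {V : Type} (G : SimpleGraph V) {N : ℕ} (π : Fin N → V)
    (p : ℕ → V) (h : ∀ i : Fin N, p i = π i) : ∀ (n : ℕ) (hn : n < N), run A G π ⟨n, hn⟩ = runN A G p n := by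
  intro n
  induction n using Nat.strong_induction_on with
  | _ n ih =>
    intro hn
    rw [run, runN]
    have h1 : (fun j : Fin (n + 1) => π ⟨j, by omega⟩) = (fun j : Fin (n + 1) => p j) := by
      funext j
      exact (h ⟨j, by omega⟩).symm
    have h2 : (fun j : Fin n => run A G π ⟨j, by omega⟩) = (fun j : Fin n => runN A G p j) := by
      funext j
      exact ih j j.isLt (by omega)
    simp only at h1 h2 ⊢
    rw [h1, h2]

lemma runN_congr (A : OnlineAlgorithm) {V W : Type} (G : SimpleGraph V) (G' : SimpleGraph W)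
    (p : ℕ → V) (p' : ℕ → W) (n : ℕ)
    (h : ∀ a b, a < n → b < n → (G.Adj (p a) (p b) ↔ G'.Adj (p' a) (p' b))) :
    ∀ i, i < n → runN A G p i = runN A G' p' i := by
  intro i
  induction i using Nat.strong_induction_on with
  | _ i ih =>
    intro hi
    rw [runN, runN]
    have h1 : (G.comap fun j : Fin (i + 1) => p j) = (G'.comap fun j : Fin (i + 1) => p' j) := by
      ext a b
      simp only [SimpleGraph.comap_adj]
      exact h a b (by omega) (by omega)
    have h2 : (fun j : Fin i => runN A G p j) = (fun j : Fin i => runN A G' p' j) := by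
      funext j
      exact ih j j.isLt (by omega)
    rw [h1, h2]

/-- extending a partial injective sequence to an order of all vertices -/
lemma exists_order {V : Type} [Fintype V] (p : ℕ → V) (n : ℕ)
    (hI : ∀ a b, a < n → b < n → p a = p b → a = b) :
    n ≤ Fintype.card V ∧ ∃ π : Fin (Fintype.card V) ≃ V, ∀ i (h : i < Fintype.card V), i < n → π ⟨i, h⟩ = p i := by
  classical
  have hinj : Function.Injective (fun i : Fin n => p i) := by
    intro a b hab
    exact Fin.ext (hI a b a.isLt b.isLt hab)
  have hle : n ≤ Fintype.card V := by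
    have := Fintype.card_le_of_injective _ hinj
    rwa [Fintype.card_fin] at this
  refine ⟨hle, ?_⟩
  let e : Fin (Fintype.card V) ≃ V := (Fintype.equivFin V).symm
  have hinj2 : Function.Injective (fun i : Fin n => e (Fin.castLE hle i)) := by
    intro a b hab
    have := e.injective hab
    exact Fin.castLE_injective hle this
  let e1 : {x // x ∈ Set.range (fun i : Fin n => e (Fin.castLE hle i))} ≃ Fin n :=
    (Equiv.ofInjective _ hinj2).symm
  let e2 : Fin n ≃ {x // x ∈ Set.range (fun i : Fin n => p i)} := Equiv.ofInjective _ hinj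
  let σ : Equiv.Perm V := (e1.trans e2).extendSubtype
  refine ⟨e.trans σ, ?_⟩
  intro i h hi
  have hmem : e ⟨i, h⟩ ∈ Set.range (fun i : Fin n => e (Fin.castLE hle i)) := ⟨⟨i, hi⟩, rfl⟩
  have h1 : σ (e ⟨i, h⟩) = ((e1.trans e2) ⟨e ⟨i, h⟩, hmem⟩ : V) :=
    Equiv.extendSubtype_apply_of_mem (e1.trans e2) (e ⟨i, h⟩) hmem
  rw [Equiv.trans_apply, h1, Equiv.trans_apply]
  have h2 : e1 ⟨e ⟨i, h⟩, hmem⟩ = ⟨i, hi⟩ := by
    apply (Equiv.ofInjective _ hinj2).injective
    rw [show (Equiv.ofInjective _ hinj2) (e1 ⟨e ⟨i, h⟩, hmem⟩) = ⟨e ⟨i, h⟩, hmem⟩ from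
      (Equiv.ofInjective _ hinj2).apply_symm_apply _]
    rfl
  rw [h2]
  rfl

section
variable {A : OnlineAlgorithm} {V : Type} [Fintype V] {G : SimpleGraph V}

lemma partial_proper (hA : WorksOn A G) (p : ℕ → V) (n : ℕ)
    (hI : ∀ a b, a < n → b < n → p a = p b → a = b) :
    ∀ a b, a < n → b < n → G.Adj (p a) (p b) → runN A G p a ≠ runN A G p b := by
  obtain ⟨hle, π, hπ⟩ := exists_order p n hI
  intro a b ha hb hab
  let p' : ℕ → V := fun i => if h : i < Fintype.card V then π ⟨i, h⟩ else p i
  have hp' : ∀ i : Fin (Fintype.card V), p' i = π i := by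
    intro i
    simp only [p']
    rw [dif_pos i.isLt]
  have hp'' : ∀ i, i < n → p' i = p i := by
    intro i hi
    simp only [p']
    rw [dif_pos (by omega), hπ i _ hi]
  have hc : ∀ i, i < n → runN A G p i = runN A G p' i := by
    apply runN_congr
    intro a b ha hb
    rw [hp'' a ha, hp'' b hb]
  rw [hc a ha, hc b hb, ← run_eq_runN A G π p' hp' a (by omega), ← run_eq_runN A G π p' hp' b (by omega)]
  apply hA
  rw [hπ a _ ha, hπ b _ hb]
  exact hab

lemma partial_card (p : ℕ → V) (n : ℕ) (hI : ∀ a b, a < n → b < n → p a = p b → a = b) :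
    ((Finset.range n).image (runN A G p)).card ≤ chiAlg A G := by
  classical
  obtain ⟨hle, π, hπ⟩ := exists_order p n hI
  let p' : ℕ → V := fun i => if h : i < Fintype.card V then π ⟨i, h⟩ else p i
  have hp' : ∀ i : Fin (Fintype.card V), p' i = π i := by
    intro i
    simp only [p']
    rw [dif_pos i.isLt]
  have hp'' : ∀ i, i < n → p' i = p i := by
    intro i hi
    simp only [p']
    rw [dif_pos (by omega), hπ i _ hi]
  have hc : ∀ i, i < n → runN A G p i = runN A G p' i := by
    apply runN_congr
    intro a b ha hb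
    rw [hp'' a ha, hp'' b hb]
  have h1 : (Finset.range n).image (runN A G p) ⊆ Finset.univ.image (run A G π) := by
    intro c hcm
    rw [Finset.mem_image] at hcm ⊢
    obtain ⟨i, hi, rfl⟩ := hcm
    rw [Finset.mem_range] at hi
    exact ⟨⟨i, by omega⟩, Finset.mem_univ _, by rw [run_eq_runN A G π p' hp', hc i hi]⟩
  refine (Finset.card_le_card h1).trans ?_
  unfold chiAlg
  exact le_ciSup (f := fun π : Fin (Fintype.card V) ≃ V => coloursUsed A G π)
    (Set.finite_range _).bddAbove π

/-- A graph containing the tree positions admits no algorithm with few colours. -/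
theorem no_algorithm (hA : WorksOn A G) (q : ℕ) (hq : chiAlg A G ≤ q) (E : U → V)
    (hE : ∀ s s', Dom q s → Dom q s' → E s = E s' → s = s')
    (hadj : ∀ s s', Dom q s → Dom q s' → (G.Adj (E s) (E s') ↔ Cmp s s' ∧ side s ≠ side s')) :
    False := by
  refine no_game (q := q) (rn := fun p i => runN A G (fun k => E (p k)) i) ⟨?_, ?_, ?_⟩
  · intro p p' n h1 h2 h3
    apply runN_congr
    intro a b ha hb
    rw [hadj _ _ (h1 a ha) (h1 b hb), hadj _ _ (h2 a ha) (h2 b hb)]
    exact h3 a b ha hb
  · intro p n h1 h2 a b ha hb hc hs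
    refine partial_proper hA (fun k => E (p k)) n ?_ a b ha hb ?_
    · intro a b ha hb hab
      exact h2 a b ha hb (hE _ _ (h1 a ha) (h1 b hb) hab)
    · rw [hadj _ _ (h1 a ha) (h1 b hb)]; exact ⟨hc, hs⟩
  · intro p n h1 h2
    refine le_trans (partial_card (A := A) (G := G) (fun k => E (p k)) n ?_) hq
    intro a b ha hb hab
    exact h2 a b ha hb (hE _ _ (h1 a ha) (h1 b hb) hab)

end

/-! ### Encoding positions in the binary tree -/

/-- binary code of a position -/
def enc : U → List Bool
  | [] => []
  | x :: s => x.2 :: false :: (List.replicate x.1 true ++ enc s)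

/-- the same, root first -/
def enc' : U → List Bool
  | [] => []
  | x :: s => List.replicate x.1 true ++ false :: x.2 :: enc' s

lemma enc'_append (s t : U) : enc' (s ++ t) = enc' s ++ enc' t := by
  induction s with
  | nil => rfl
  | cons x s ih => simp [enc', ih]

lemma enc_reverse (s : U) : (enc s).reverse = enc' s.reverse := by
  induction s with
  | nil => rfl
  | cons x s ih =>
    rw [List.reverse_cons, enc'_append, ← ih]
    simp [enc, enc']

lemma prefix_code {i i' : ℕ} {b b' : Bool} {X X' : List Bool}
    (h : (List.replicate i true ++ false :: b :: X) <+: (List.replicate i' true ++ false :: b' :: X')) :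
    i = i' ∧ b = b' ∧ X <+: X' := by
  induction i generalizing i' with
  | zero =>
    cases i' with
    | zero =>
      simp only [List.replicate_zero, List.nil_append, List.cons_prefix_cons, true_and] at h
      exact ⟨rfl, h.1, h.2⟩
    | succ i' =>
      simp [List.replicate_succ, List.cons_prefix_cons] at h
  | succ i ih =>
    cases i' with
    | zero =>
      simp [List.replicate_succ, List.cons_prefix_cons] at h
    | succ i' =>
      rw [List.replicate_succ, List.replicate_succ, List.cons_append, List.cons_append,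
        List.cons_prefix_cons] at h
      obtain ⟨h1, h2, h3⟩ := ih h.2
      exact ⟨by omega, h2, h3⟩

lemma enc'_prefix {s t : U} : enc' s <+: enc' t ↔ s <+: t := by
  induction s generalizing t with
  | nil => simp [enc']
  | cons x s ih =>
    cases t with
    | nil =>
      simp [enc']
    | cons y t =>
      rw [List.cons_prefix_cons]
      constructor
      · intro h
        obtain ⟨h1, h2, h3⟩ := prefix_code h
        exact ⟨Prod.ext h1 h2, ih.1 h3⟩
      · rintro ⟨rfl, h⟩
        obtain ⟨r, hr⟩ := ih.2 h
        refine ⟨r, ?_⟩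
        simp [enc', hr]

lemma enc_suffix {s t : U} : enc s <:+ enc t ↔ s <:+ t := by
  rw [← List.reverse_prefix, enc_reverse, enc_reverse, enc'_prefix, List.reverse_prefix]

lemma enc_cmp {s t : U} : Cmp (enc s) (enc t) ↔ Cmp s t := by
  unfold Cmp; rw [enc_suffix, enc_suffix]

lemma enc_inj {s t : U} (h : enc s = enc t) : s = t := by
  have h1 : s <:+ t := enc_suffix.1 (by rw [h])
  have h2 : t <:+ s := enc_suffix.1 (by rw [h])
  exact h1.eq_of_length (le_antisymm h1.length_le h2.length_le)

lemma enc_ne {s : U} (h : s ≠ []) : enc s ≠ [] := by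
  cases s with
  | nil => exact absurd rfl h
  | cons x s => simp [enc]

lemma enc_head {s : U} (h : s ≠ []) : (enc s).headD false = side s := by
  cases s with
  | nil => exact absurd rfl h
  | cons x s => rfl

lemma enc_length {q : ℕ} {s : U} (h : ∀ x ∈ s, x.1 ≤ q) : (enc s).length ≤ (q + 2) * s.length := by
  induction s with
  | nil => simp [enc]
  | cons x s ih =>
    have h1 := ih (fun y hy => h y (List.mem_cons_of_mem _ hy))
    have h2 := h x List.mem_cons_self
    simp only [enc, List.length_cons, List.length_append, List.length_replicate]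
    nlinarith

lemma enc_length_dom {q : ℕ} {s : U} (h : Dom q s) : (enc s).length ≤ (q + 2) * (q + 1) :=
  (enc_length h.2.2).trans (Nat.mul_le_mul_left _ h.2.1)

end Pool.Agent.Lib.MP_ada285_co
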