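import Mathlib
import Pool.Agent.Lib.MP_ada285_co.Model

set_option autoImplicit false

namespace Pool.Agent.Lib.MP_ada285_co

/-- the algorithm -/
noncomputable def theAlg : OnlineAlgorithm := fun i K c =>
  rule i (K.map Fin.valEmbedding) (fun j => if h : j < i then c ⟨j, h⟩ else 0)

variable {V : Type} {G : SimpleGraph V} {N : ℕ}

/-- the presented graph on the natural numbers -/
def pres (G : SimpleGraph V) (π : Fin N → V) : SimpleGraph ℕ := (G.comap π).map Fin.valEmbedding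

lemma pres_adj {π : Fin N → V} {a b : ℕ} : (pres G π).Adj a b ↔
    ∃ (ha : a < N) (hb : b < N), G.Adj (π ⟨a, ha⟩) (π ⟨b, hb⟩) := by
  unfold pres
  rw [SimpleGraph.map_adj]
  constructor
  · rintro ⟨i, j, h, rfl, rfl⟩
    exact ⟨i.isLt, j.isLt, h⟩
  · rintro ⟨ha, hb, h⟩
    exact ⟨⟨a, ha⟩, ⟨b, hb⟩, h, rfl, rfl⟩

lemma run_theAlg (π : Fin N → V) : ∀ (n : ℕ) (hn : n < N),
    run theAlg G π ⟨n, hn⟩ = col (pres G π) n := by
  intro n
  induction n using Nat.strong_induction_on with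
  | _ n ih =>
    intro hn
    rw [run, col_eq]
    simp only [theAlg]
    have h1 : (G.comap fun j : Fin (n + 1) => π ⟨j, by omega⟩).map Fin.valEmbedding =
        R (pres G π) n := by
      ext a b
      rw [R_adj, pres_adj, SimpleGraph.map_adj]
      constructor
      · rintro ⟨i, j, h, rfl, rfl⟩
        have hi := i.isLt
        have hj := j.isLt
        exact ⟨⟨by simp; omega, by simp; omega, h⟩, by simp; omega, by simp; omega⟩
      · rintro ⟨⟨ha, hb, h⟩, h1, h2⟩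
        exact ⟨⟨a, by omega⟩, ⟨b, by omega⟩, h, rfl, rfl⟩
    rw [h1]
    apply rule_congr
    intro j hj
    rw [dif_pos hj]
    exact ih j hj (by omega)

lemma pres_tri (hG : G.CliqueFree 3) (π : Fin N → V) : TriFree (pres G π) := by
  classical
  intro a b c hab hbc hac
  rw [pres_adj] at hab hbc hac
  obtain ⟨ha, hb, h1⟩ := hab
  obtain ⟨_, hc, h2⟩ := hbc
  obtain ⟨_, _, h3⟩ := hac
  exact hG {π ⟨a, ha⟩, π ⟨b, hb⟩, π ⟨c, hc⟩} (SimpleGraph.is3Clique_triple_iff.2 ⟨h1, h3, h2⟩)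

lemma twins_p6 : ∀ i j : Fin 6, (∀ k : Fin 6, (i.val + 1 = k.val ∨ k.val + 1 = i.val) ↔
    (j.val + 1 = k.val ∨ k.val + 1 = j.val)) → i = j := by decide

lemma pres_p6 (hG : ¬ (SimpleGraph.pathGraph 6).IsIndContained G) (π : Fin N → V) :
    P6Free (pres G π) := by
  intro a b c d e f hab hbc hcd hde hef h1 h2 h3 h4 h5 h6 h7 h8 h9 h10
  simp only [pres_adj] at hab hbc hcd hde hef
  obtain ⟨ha, hb, hab⟩ := hab
  obtain ⟨_, hc, hbc⟩ := hbc
  obtain ⟨_, hd, hcd⟩ := hcd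
  obtain ⟨_, he, hde⟩ := hde
  obtain ⟨_, hf, hef⟩ := hef
  have key : ∀ x y (hx : x < N) (hy : y < N), ¬ (pres G π).Adj x y →
      ¬ G.Adj (π ⟨x, hx⟩) (π ⟨y, hy⟩) := by
    intro x y hx hy h h'
    exact h (pres_adj.2 ⟨hx, hy, h'⟩)
  have k1 := key _ _ ha hc h1
  have k2 := key _ _ ha hd h2
  have k3 := key _ _ ha he h3
  have k4 := key _ _ ha hf h4
  have k5 := key _ _ hb hd h5
  have k6 := key _ _ hb he h6
  have k7 := key _ _ hb hf h7
  have k8 := key _ _ hc he h8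
  have k9 := key _ _ hc hf h9
  have k10 := key _ _ hd hf h10
  apply hG
  have hadj : ∀ i j : Fin 6, G.Adj (![π ⟨a, ha⟩, π ⟨b, hb⟩, π ⟨c, hc⟩, π ⟨d, hd⟩, π ⟨e, he⟩, π ⟨f, hf⟩] i)
      (![π ⟨a, ha⟩, π ⟨b, hb⟩, π ⟨c, hc⟩, π ⟨d, hd⟩, π ⟨e, he⟩, π ⟨f, hf⟩] j) ↔
      (SimpleGraph.pathGraph 6).Adj i j := by
    intro i j
    rw [SimpleGraph.pathGraph_adj]
    fin_cases i <;> fin_cases j <;>
      simp [hab, hab.symm, hbc, hbc.symm, hcd, hcd.symm, hde, hde.symm, hef, hef.symm, k1, k2, k3, k4,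
        k5, k6, k7, k8, k9, k10, G.adj_comm (π ⟨c, hc⟩) (π ⟨a, ha⟩), G.adj_comm (π ⟨d, hd⟩) (π ⟨a, ha⟩),
        G.adj_comm (π ⟨e, he⟩) (π ⟨a, ha⟩), G.adj_comm (π ⟨f, hf⟩) (π ⟨a, ha⟩),
        G.adj_comm (π ⟨d, hd⟩) (π ⟨b, hb⟩), G.adj_comm (π ⟨e, he⟩) (π ⟨b, hb⟩),
        G.adj_comm (π ⟨f, hf⟩) (π ⟨b, hb⟩), G.adj_comm (π ⟨e, he⟩) (π ⟨c, hc⟩),
        G.adj_comm (π ⟨f, hf⟩) (π ⟨c, hc⟩), G.adj_comm (π ⟨f, hf⟩) (π ⟨d, hd⟩)]
  refine ⟨⟨⟨![π ⟨a, ha⟩, π ⟨b, hb⟩, π ⟨c, hc⟩, π ⟨d, hd⟩, π ⟨e, he⟩, π ⟨f, hf⟩], ?_⟩, ?_⟩⟩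
  · intro i j hij
    have hsame : ∀ k, (SimpleGraph.pathGraph 6).Adj i k ↔ (SimpleGraph.pathGraph 6).Adj j k := by
      intro k
      rw [← hadj i k, ← hadj j k, hij]
    simp only [SimpleGraph.pathGraph_adj] at hsame
    exact twins_p6 i j hsame
  · intro i j
    exact hadj i j

lemma theAlg_works [Fintype V] (hT : G.CliqueFree 3)
    (hP : ¬ (SimpleGraph.pathGraph 6).IsIndContained G) : WorksOn theAlg G := by
  intro π i j hij
  have h1 : (pres G (π : Fin (Fintype.card V) → V)).Adj i j := pres_adj.2 ⟨i.isLt, j.isLt, hij⟩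
  have hne : i ≠ j := by
    rintro rfl
    exact G.loopless.irrefl _ hij
  have e : ∀ k : Fin (Fintype.card V), run theAlg G π k = col (pres G π) k := fun k => run_theAlg _ k.val k.isLt
  rw [e i, e j]
  rcases lt_or_gt_of_ne hne with h | h
  · exact col_proper (pres_tri hT _) (pres_p6 hP _) h h1
  · exact (col_proper (pres_tri hT _) (pres_p6 hP _) h h1.symm).symm

/-- the bounding function -/
def bound (q : ℕ) : ℕ := 3 * ((q + 2) * (q + 1)) + 18

lemma level_bound [Fintype V] (hT : G.CliqueFree 3)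
    (hP : ¬ (SimpleGraph.pathGraph 6).IsIndContained G) (π : Fin (Fintype.card V) ≃ V)
    (n : ℕ) (hn : n < Fintype.card V) (hb : ¬ OddC (R (pres G π) n) n n) :
    lv (pres G π) n ≤ (chiOL G + 2) * (chiOL G + 1) := by
  by_contra hcon
  push Not at hcon
  obtain ⟨F, hF1, hF2, hF3⟩ := tree_of_level (pres_tri hT π) (pres_p6 hP π) hb hcon
  have hne : {k | ∃ A : OnlineAlgorithm, WorksOn A G ∧ chiAlg A G = k}.Nonempty :=
    ⟨_, theAlg, theAlg_works hT hP, rfl⟩
  obtain ⟨A, hA, hAq⟩ : ∃ A : OnlineAlgorithm, WorksOn A G ∧ chiAlg A G = chiOL G := Nat.sInf_mem hne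
  have hlt : ∀ s, Dom (chiOL G) s → F (enc s) < Fintype.card V := by
    intro s hs
    have := hF1 (enc s) (enc_length_dom hs)
    omega
  refine no_algorithm hA (chiOL G) hAq.le
    (fun s => if h : F (enc s) < Fintype.card V then π ⟨F (enc s), h⟩ else π ⟨n, hn⟩) ?_ ?_
  · intro s s' hs hs' heq
    rw [dif_pos (hlt s hs), dif_pos (hlt s' hs')] at heq
    have h1 := π.injective heq
    have h2 := Fin.mk.inj_iff.1 h1
    exact enc_inj (hF2 _ _ (enc_length_dom hs) (enc_length_dom hs') h2)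
  · intro s s' hs hs'
    rw [dif_pos (hlt s hs), dif_pos (hlt s' hs')]
    have h1 := hF3 (enc s) (enc s') (enc_ne hs.1) (enc_ne hs'.1) (enc_length_dom hs) (enc_length_dom hs')
    rw [enc_cmp, enc_head hs.1, enc_head hs'.1] at h1
    rw [← h1, pres_adj]
    constructor
    · intro h; exact ⟨hlt s hs, hlt s' hs', h⟩
    · rintro ⟨_, _, h⟩; exact h

theorem chi_bound [Fintype V] (hT : G.CliqueFree 3)
    (hP : ¬ (SimpleGraph.pathGraph 6).IsIndContained G) : chiAlg theAlg G ≤ bound (chiOL G) := by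
  classical
  unfold chiAlg
  by_cases hne : Nonempty (Fin (Fintype.card V) ≃ V)
  · apply ciSup_le
    intro π
    unfold coloursUsed
    have hsub : (Finset.univ.image (run theAlg G π)) ⊆ Finset.range (bound (chiOL G)) := by
      intro c hc
      rw [Finset.mem_image] at hc
      obtain ⟨k, _, rfl⟩ := hc
      rw [Finset.mem_range, run_theAlg _ k.val k.isLt]
      unfold bound
      by_cases hb : OddC (R (pres G π) k.val) k.val k.val
      · rw [col_nonbip hb]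
        have := typ_le (R (pres G π) k.val) k.val
          (anchor (R (pres G π) (root (R (pres G π) k.val) k.val)) (root (R (pres G π) k.val) k.val))
        omega
      · have h1 := level_bound hT hP π k.val k.isLt hb
        rcases col_bip hb with ⟨_, h⟩ | ⟨_, h⟩ <;> rw [h] <;> omega
    have := Finset.card_le_card hsub
    rwa [Finset.card_range] at this
  · rw [not_nonempty_iff] at hne
    rw [ciSup_of_empty]
    exact Nat.zero_le _

end Pool.Agent.Lib.MP_ada285_co
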